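import Pool.Agent.H685R2.STA.Defs

namespace Pool.Agent.H685R2.STA

theorem dout_append (D E : List (ℕ × ℕ)) (X : Finset ℕ) :
    dout (D ++ E) X = dout D X + dout E X := by
  unfold dout
  rw [List.countP_append]

theorem cv_eq (a : ℕ × ℕ) (I : Multiset (Finset ℕ)) :
    cv a I = (I.map fun X => if lv a X then 1 else 0).sum := by
  unfold cv
  induction I using Multiset.induction with
  | empty => simp
  | cons X I ih =>
    rw [Multiset.countP_cons, ih, Multiset.map_cons, Multiset.sum_cons, add_comm]

theorem sum_dout (E : List (ℕ × ℕ)) (I : Multiset (Finset ℕ)) :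
    (I.map fun X => dout E X).sum = (E.map fun a => cv a I).sum := by
  induction E with
  | nil => simp [dout]
  | cons a E ih =>
    have h : ∀ X, dout (a :: E) X = (if lv a X then 1 else 0) + dout E X := by
      intro X
      unfold dout
      rw [List.countP_cons, add_comm]
      congr 1
      simp
    rw [Multiset.map_congr rfl fun X _ => h X, Multiset.sum_map_add, ih, List.map_cons,
      List.sum_cons, cv_eq]

theorem sum_cv_le (F P : List (ℕ × ℕ)) (hF : ∀ a ∈ F, a ∈ P) (I : Multiset (Finset ℕ))
    (hI : Indep P I) : (F.map fun a => cv a I).sum ≤ F.length := by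
  have h := List.sum_le_card_nsmul (F.map fun a => cv a I) 1 (by
    intro x hx
    obtain ⟨a, ha, rfl⟩ := List.mem_map.1 hx
    exact hI.2 a (hF a ha))
  rw [List.length_map, smul_eq_mul, mul_one] at h
  exact h

theorem weak_duality (D P : List (ℕ × ℕ)) (k m : ℕ) (h : Opt D P k m)
    (I : Multiset (Finset ℕ)) (hI : Indep P I) : dem D k I ≤ m := by
  obtain ⟨F, hF, hlen, hcov⟩ := h
  have h1 : dem D k I ≤ (I.map fun X => (dout F X : ℤ)).sum := by
    unfold dem
    apply Multiset.sum_map_le_sum_map
    intro X hX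
    obtain ⟨a, ha, hl⟩ := hI.1 X hX
    have := hcov a ha X hl
    rw [dout_append] at this
    omega
  have h2 : (I.map fun X => (dout F X : ℤ)).sum = (((I.map fun X => dout F X).sum : ℕ) : ℤ) := by
    rw [Nat.cast_multiset_sum, Multiset.map_map]
    rfl
  rw [h2, sum_dout] at h1
  have h3 := sum_cv_le F P hF I hI
  have h4 : ((F.map fun a => cv a I).sum : ℤ) ≤ m := by exact_mod_cast h3.trans hlen
  exact h1.trans h4

theorem indep_card (P : List (ℕ × ℕ)) (I : Multiset (Finset ℕ)) (hI : Indep P I) :
    I.card ≤ P.length := by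
  have h1 : I.card = (I.map fun _ => 1).sum := by simp
  rw [h1]
  refine le_trans ?_ (sum_cv_le P P (fun a ha => ha) I hI)
  rw [← sum_dout]
  apply Multiset.sum_map_le_sum_map
  intro X hX
  obtain ⟨a, ha, hl⟩ := hI.1 X hX
  unfold dout
  rw [Nat.one_le_iff_ne_zero, ← Nat.pos_iff_ne_zero, List.countP_pos_iff]
  exact ⟨a, ha, by simpa using hl⟩

end Pool.Agent.H685R2.STA
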