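import Pool.Agent.H685R2.STA.FJ
import Pool.Agent.H685R2.STA.WD

namespace Pool.Agent.H685R2.STA

theorem accept_sound (S T : List ℕ) (D E : List (ℕ × ℕ)) (k B Z : ℕ)
    (hE : ∀ a ∈ E, a ∈ pairs S T) (hlen : E.length ≤ B * Z)
    (hacc : ∀ a ∈ pairs S T, ∀ X : Finset ℕ, lv a X →
      (pairs S T).length * Z * k < (pairs S T).length * (Z * dout D X + dout E X) + Z) :
    Opt D (pairs S T) k B := by
  apply frank_jordan
  intro I hI
  generalize hP : pairs S T = P at *
  set N : ℕ := P.length with hN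
  rcases Multiset.empty_or_exists_mem I with rfl | ⟨X0, hX0⟩
  · simp [dem]
  obtain ⟨a0, ha0, hl0⟩ := hI.1 X0 hX0
  have hNpos : 0 < N := by
    rw [hN]; exact List.length_pos_of_mem ha0
  have hcard : I.card ≤ N := indep_card P I hI
  have h0 := hacc a0 ha0 X0 hl0
  -- the pointwise inequality
  have hpt : ∀ X ∈ I, (N * Z : ℤ) * ((k : ℤ) - (dout D X : ℤ)) + 1 ≤
      (N : ℤ) * (dout E X : ℤ) + Z := by
    intro X hX
    obtain ⟨a, ha, hl⟩ := hI.1 X hX
    have h1 := hacc a ha X hl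
    have h2 : ((N * Z * k : ℕ) : ℤ) < ((N * (Z * dout D X + dout E X) + Z : ℕ) : ℤ) := by
      exact_mod_cast h1
    push_cast at h2
    nlinarith [h2]
  have hsum := Multiset.sum_map_le_sum_map _ _ hpt
  have e1 : (I.map fun X => (N * Z : ℤ) * ((k : ℤ) - (dout D X : ℤ)) + 1).sum =
      (N * Z : ℤ) * dem D k I + I.card := by
    rw [Multiset.sum_map_add, Multiset.sum_map_mul_left]
    simp [dem]
  have e2 : (I.map fun X => (N : ℤ) * (dout E X : ℤ) + (Z : ℤ)).sum =
      (N : ℤ) * ((E.map fun a => cv a I).sum : ℕ) + I.card * Z := by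
    rw [Multiset.sum_map_add, Multiset.sum_map_mul_left, ← sum_dout]
    have : (I.map fun X => (dout E X : ℤ)).sum = (((I.map fun X => dout E X).sum : ℕ) : ℤ) := by
      rw [Nat.cast_multiset_sum, Multiset.map_map]; rfl
    rw [this]
    simp
  have e3 : (E.map fun a => cv a I).sum ≤ B * Z := by
    refine le_trans ?_ hlen
    have : (E.map fun a => cv a I).sum ≤ (E.map fun _ => 1).sum := by
      apply List.sum_le_sum
      intro a ha
      exact hI.2 a (hE a ha)
    simpa using this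
  rw [e1, e2] at hsum
  have e3' : (((E.map fun a => cv a I).sum : ℕ) : ℤ) ≤ B * Z := by exact_mod_cast e3
  have hcard' : (I.card : ℤ) ≤ N := by exact_mod_cast hcard
  have hcpos : (1 : ℤ) ≤ I.card := by
    have : 0 < I.card := Multiset.card_pos_iff_exists_mem.mpr ⟨X0, hX0⟩
    exact_mod_cast this
  have hNp : (0 : ℤ) < N := by exact_mod_cast hNpos
  by_contra hcon
  push Not at hcon
  have hZ0 : (0 : ℤ) ≤ Z := by positivity
  have h5 : (N : ℤ) * (((E.map fun a => cv a I).sum : ℕ) : ℤ) ≤ N * (B * Z) :=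
    mul_le_mul_of_nonneg_left e3' hNp.le
  have h6 : (I.card : ℤ) * Z ≤ N * Z := mul_le_mul_of_nonneg_right hcard' hZ0
  have h7 : (N * Z : ℤ) * (B + 1) ≤ (N * Z : ℤ) * dem D k I :=
    mul_le_mul_of_nonneg_left (by omega) (by positivity)
  nlinarith
end Pool.Agent.H685R2.STA
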