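import Pool.Agent.H685R2.STA.Defs

/-!
# `S`-`T` edge-connectivity augmentation: the algorithm
-/

namespace Pool.Agent.H685R2.STA

/-! ### Minimum cuts by augmenting paths

`C` is the list of the arcs of unit capacity of the residual digraph. -/

/-- the arcs of `C` leaving the set of the members of the list `X` -/
def leave (C : List (ℕ × ℕ)) (X : List ℕ) : List (ℕ × ℕ) :=
  C.filter fun a => decide (a.1 ∈ X) && !decide (a.2 ∈ X)

/-- remove one copy of the arc `a` -/
def rem (a : ℕ × ℕ) (C : List (ℕ × ℕ)) : List (ℕ × ℕ) :=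
  C.filter (fun b => !decide (b = a)) ++ (C.filter fun b => decide (b = a)).tail

/-- push one unit along the arc `a`: replace one copy of `a` by the reversed arc -/
def push (a : ℕ × ℕ) (C : List (ℕ × ℕ)) : List (ℕ × ℕ) :=
  if a ∈ C then (a.2, a.1) :: rem a C else C

/-- the vertices reached from `s` by the search tree `Tr` (a list of arcs, newest first) -/
def reach (s : ℕ) (Tr : List (ℕ × ℕ)) : List ℕ := s :: Tr.map Prod.snd

/-- extend the search tree by one arc of `C` -/
def ext (C : List (ℕ × ℕ)) (s : ℕ) (Tr : List (ℕ × ℕ)) : List (ℕ × ℕ) :=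
  (leave C (reach s Tr)).head?.elim Tr fun a => a :: Tr

/-- the complete search tree from `s` -/
def tree (C : List (ℕ × ℕ)) (s : ℕ) : List (ℕ × ℕ) := (ext C s)^[C.length] []

/-- one step back in the search tree, pushing one unit along the tree arc -/
def back (x : ℕ × List (ℕ × ℕ)) (a : ℕ × ℕ) : ℕ × List (ℕ × ℕ) :=
  if a.2 = x.1 then (a.1, push a x.2) else x

/-- one augmentation along a path from `s` to `t`, if there is one -/
def aug (s t : ℕ) (C : List (ℕ × ℕ)) : List (ℕ × ℕ) :=
  if t ∈ reach s (tree C s) then ((tree C s).foldl back (t, C)).2 else C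

/-- a maximum flow from `s` to `t` (its residual digraph) -/
def flow (s t : ℕ) (C : List (ℕ × ℕ)) : List (ℕ × ℕ) := (aug s t)^[C.length] C

/-- a minimum cut separating `t` from `s` -/
def cutL (C : List (ℕ × ℕ)) (s t : ℕ) : List ℕ := reach s (tree (flow s t C) s)

/-! ### The multiplicative weights method -/

/-- the precision `Z` -/
def prec (N B : ℕ) : ℕ := 2 * B * (N * N) + 1

/-- the capacities: every arc of `D` gets `Z` units, and the `i`-th pair of `P` gets
`B * min Z ⌊Z * w_i / ∑ w⌋` units -/
def capn (D P : List (ℕ × ℕ)) (B : ℕ) (w : List ℕ) : List (ℕ × ℕ) :=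
  (List.replicate (prec P.length B) D).flatten ++ (P.zip w).flatMap fun e =>
    List.replicate (B * min (prec P.length B) (prec P.length B * e.2 / w.sum)) e.1

/-- is the cut `X` violated? (`C` are the capacities) -/
def bad (C : List (ℕ × ℕ)) (N Z k : ℕ) (X : List ℕ) : Bool :=
  decide (N * (leave C X).length + Z ≤ N * Z * k)

/-- a violated cut -/
def viol (D P : List (ℕ × ℕ)) (K : List Unit) (B : ℕ) (w : List ℕ) : Option (List ℕ) :=
  ((P.map fun a => cutL (capn D P B w) a.1 a.2).filter fun X =>
    bad (capn D P B w) P.length (prec P.length B) K.length X).head?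

/-- the new weights -/
def upd (P : List (ℕ × ℕ)) (M : ℕ) (w : List ℕ) (X : List ℕ) : List ℕ :=
  (P.zip w).map fun e => e.2 * (if e.1.1 ∈ X ∧ e.1.2 ∉ X then M + 1 else M)

/-- one round -/
def step (D P : List (ℕ × ℕ)) (K : List Unit) (B : ℕ) (o : Option (List ℕ)) :
    Option (List ℕ) :=
  o.elim none fun w => (viol D P K B w).elim none fun X =>
    some (upd P (2 * P.length * K.length) w X)

/-- the number of rounds -/
def rounds (N k B : ℕ) : ℕ := 8 * (N * N * N) * k * B + 1

/-- the test whether `OPT ≤ B`, assuming `B ≤ N * k` -/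
def dec0 (D P : List (ℕ × ℕ)) (K : List Unit) (B : ℕ) : Bool :=
  ((step D P K B)^[rounds P.length K.length B] (some (P.map fun _ => 1))).isNone

/-- the test whether `OPT ≤ B` -/
def dec (D P : List (ℕ × ℕ)) (K : List Unit) (B : ℕ) : Bool :=
  dec0 D P K (min B (P.length * K.length))

/-! ### The greedy algorithm -/

/-- choose `B` arcs one after the other such that the optimum decreases -/
def build (D P : List (ℕ × ℕ)) (K : List Unit) (B : ℕ) : List (ℕ × ℕ) :=
  (List.range B).foldr (fun j F =>
    (P.filter fun a => dec (D ++ a :: F) P K j).head?.elim F fun a => a :: F) []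

/-- the optimum -/
def optv (D P : List (ℕ × ℕ)) (K : List Unit) : ℕ :=
  ((List.range (P.length * K.length + 1)).filter fun B => dec D P K B).head?.getD 0

/-- an optimal augmentation -/
def sol (D P : List (ℕ × ℕ)) (K : List Unit) : List (ℕ × ℕ) := build D P K (optv D P K)

/-- the optimal augmentation as a vector -/
def core (x : (List (ℕ × ℕ) × List ℕ × List ℕ) × List Unit) : List ((ℕ × ℕ) × ℕ) :=
  (pairs x.1.2.1 x.1.2.2).map fun a =>
    (a, ((sol x.1.1 (pairs x.1.2.1 x.1.2.2) x.2).filter fun b => decide (b = a)).length)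

/-- the threshold for `k` -/
def thr (D : List (ℕ × ℕ)) (S T : List ℕ) : ℕ := D.length * (S.length * T.length)

/-- the algorithm: `k` is used only in one comparison, one subtraction and in one multiplication
and one addition for each pair `(s, t)` -/
def augment (D : List (ℕ × ℕ)) (S T : List ℕ) (k : ℕ) : List ((ℕ × ℕ) × ℕ) :=
  ((core ((D, S, T), List.replicate (min k (thr D S T)) ())).zip
    (core (([], S, T), [()]))).map fun e => (e.1.1, e.1.2 + (k - thr D S T) * e.2.2)

end Pool.Agent.H685R2.STA
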