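import Pool.Agent.H685R2.STA.Vec
import Pool.Agent.H577R2.Reach
import Pool.Agent.H671R2.PolyAuto

/-!
# New arcs between arbitrary vertices: the problem is NP-hard
-/

namespace Pool.Agent.H685R2.STA

open Pool.Agent.NPC Pool.Agent.H577R2 Pool.Agent.NPC.H577R2

/-- The version in which the new arcs may join arbitrary vertices. The instance
`(V, D, S, T, k, m)` is positive if at most `m` new arcs on the vertex set `V` suffice to make `D`
`k`-edge-connected from `S` to `T`. -/
def AnyAug (x : List ℕ × List (ℕ × ℕ) × List ℕ × List ℕ × ℕ × ℕ) : Prop :=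
  ∃ F : List (ℕ × ℕ), F.length ≤ x.2.2.2.2.2 ∧ (∀ a ∈ F, a.1 ∈ x.1 ∧ a.2 ∈ x.1) ∧
    KConn (x.2.1 ++ F) x.2.2.1 x.2.2.2.1 x.2.2.2.2.1

/-- the node of a literal -/
def ln (l : Lit ℕ) : ℕ := 4 * l.2 + (if l.1 = true then 2 else 1)

/-- the digraph of a formula -/
def fD (φ : CNF3) : List (ℕ × ℕ) :=
  ((List.range (3 * φ.length)).flatMap fun i =>
    [(4 * i + 1, 4 * i + 3), (4 * i + 2, 4 * i + 3)]) ++
  (φ.zipIdx.flatMap fun e =>
    [(ln e.1.1, 4 * e.2 + 4), (ln e.1.2.1, 4 * e.2 + 4), (ln e.1.2.2, 4 * e.2 + 4)])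

/-- the terminals -/
def fT (φ : CNF3) : List ℕ :=
  ((List.range (3 * φ.length)).map fun i => 4 * i + 3) ++
    (φ.zipIdx.map fun e => 4 * e.2 + 4)

/-- the vertices -/
def fV (φ : CNF3) : List ℕ := List.range (12 * φ.length + 5)

/-- the instance -/
def fI (φ : CNF3) : List ℕ × List (ℕ × ℕ) × List ℕ × List ℕ × ℕ × ℕ :=
  (fV φ, fD φ, [0], fT φ, 1, 3 * φ.length)

theorem ln_mod (l : Lit ℕ) : ln l % 4 = 1 ∨ ln l % 4 = 2 := by
  unfold ln
  split_ifs <;> omega

theorem mem_fD {φ : CNF3} {a : ℕ × ℕ} : a ∈ fD φ ↔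
    (∃ i < 3 * φ.length, a = (4 * i + 1, 4 * i + 3) ∨ a = (4 * i + 2, 4 * i + 3)) ∨
    ∃ j, ∃ c, φ[j]? = some c ∧
      (a = (ln c.1, 4 * j + 4) ∨ a = (ln c.2.1, 4 * j + 4) ∨ a = (ln c.2.2, 4 * j + 4)) := by
  unfold fD
  rw [List.mem_append, List.mem_flatMap, List.mem_flatMap]
  constructor
  · rintro (⟨i, hi, ha⟩ | ⟨e, he, ha⟩)
    · left
      exact ⟨i, List.mem_range.1 hi, by simpa using ha⟩
    · right
      refine ⟨e.2, e.1, ?_, by simpa using ha⟩
      rw [List.mem_zipIdx_iff_getElem?] at he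
      exact he
  · rintro (⟨i, hi, ha⟩ | ⟨j, c, hc, ha⟩)
    · left
      exact ⟨i, List.mem_range.2 hi, by simpa using ha⟩
    · right
      refine ⟨(c, j), ?_, by simpa using ha⟩
      rw [List.mem_zipIdx_iff_getElem?]
      exact hc

theorem mem_fT {φ : CNF3} {t : ℕ} : t ∈ fT φ ↔
    (∃ i < 3 * φ.length, t = 4 * i + 3) ∨ ∃ j, ∃ c, φ[j]? = some c ∧ t = 4 * j + 4 := by
  unfold fT
  rw [List.mem_append, List.mem_map, List.mem_map]
  constructor
  · rintro (⟨i, hi, ha⟩ | ⟨e, he, ha⟩)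
    · left
      exact ⟨i, List.mem_range.1 hi, ha.symm⟩
    · right
      refine ⟨e.2, e.1, ?_, ha.symm⟩
      rw [List.mem_zipIdx_iff_getElem?] at he
      exact he
  · rintro (⟨i, hi, ha⟩ | ⟨j, c, hc, ha⟩)
    · left
      exact ⟨i, List.mem_range.2 hi, ha.symm⟩
    · right
      refine ⟨(c, j), ?_, ha.symm⟩
      rw [List.mem_zipIdx_iff_getElem?]
      exact hc

theorem mem_pairs {S T : List ℕ} {a : ℕ × ℕ} :
    a ∈ pairs S T ↔ a.1 ∈ S ∧ a.2 ∈ T ∧ a.1 ≠ a.2 := by
  unfold pairs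
  rw [List.mem_filter, List.mem_flatMap]
  constructor
  · rintro ⟨⟨s, hs, ha⟩, h⟩
    rw [List.mem_map] at ha
    obtain ⟨t, ht, rfl⟩ := ha
    exact ⟨hs, ht, by simpa using h⟩
  · rintro ⟨h1, h2, h3⟩
    exact ⟨⟨a.1, h1, List.mem_map.2 ⟨a.2, h2, rfl⟩⟩, by simpa using h3⟩

/-- one arc-disjoint path means that all cuts are nonempty -/
theorem conn_one {D : List (ℕ × ℕ)} {S T : List ℕ} :
    KConn D S T 1 ↔ ∀ s ∈ S, ∀ t ∈ T, s ≠ t → ∀ X : Finset ℕ, s ∈ X → t ∉ X →
      ∃ a ∈ D, a.1 ∈ X ∧ a.2 ∉ X := by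
  rw [kconn_iff]
  have key : ∀ X : Finset ℕ, 1 ≤ dout D X ↔ ∃ a ∈ D, a.1 ∈ X ∧ a.2 ∉ X := by
    intro X
    unfold dout
    rw [Nat.one_le_iff_ne_zero, ← Nat.pos_iff_ne_zero, List.countP_pos_iff]
    simp [lv]
  constructor
  · intro h s hs t ht hst X hX1 hX2
    exact (key X).1 (h (s, t) (mem_pairs.2 ⟨hs, ht, hst⟩) X ⟨hX1, hX2⟩)
  · intro h a ha X hX
    obtain ⟨h1, h2, h3⟩ := mem_pairs.1 ha
    exact (key X).2 (h _ h1 _ h2 h3 X hX.1 hX.2)

theorem ln_lt {φ : CNF3} {l : Lit ℕ} (h : l.2 < 3 * φ.length) : ln l < 12 * φ.length := by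
  unfold ln
  split_ifs <;> omega

theorem sat_to_aug (φ : CNF3) (hs : Small φ) (h : SAT3 φ) : AnyAug (fI φ) := by
  obtain ⟨τ, hτ⟩ := h
  refine ⟨(List.range (3 * φ.length)).map fun i => (0, ln (τ i, i)), by simp [fI], ?_, ?_⟩
  · intro a ha
    rw [List.mem_map] at ha
    obtain ⟨i, hi, rfl⟩ := ha
    rw [List.mem_range] at hi
    have h1 : ln (τ i, i) < 12 * φ.length := ln_lt hi
    constructor
    · simp [fI, fV]
    · simp only [fI, fV, List.mem_range]
      omega
  · change KConn (fD φ ++ _) [0] (fT φ) 1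
    rw [conn_one]
    intro s hs0 t ht hst X hsX htX
    rw [List.mem_singleton] at hs0
    subst hs0
    have main : ∀ i, i < 3 * φ.length → (ln (τ i, i), t) ∈ fD φ →
        ∃ a ∈ fD φ ++ (List.range (3 * φ.length)).map (fun i => (0, ln (τ i, i))),
          a.1 ∈ X ∧ a.2 ∉ X := by
      intro i hi hmem
      by_cases hX : ln (τ i, i) ∈ X
      · exact ⟨_, List.mem_append_left _ hmem, hX, htX⟩
      · exact ⟨(0, ln (τ i, i)), List.mem_append_right _
          (List.mem_map.2 ⟨i, List.mem_range.2 hi, rfl⟩), hsX, hX⟩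
    rcases mem_fT.1 ht with ⟨i, hi, rfl⟩ | ⟨j, c, hc, rfl⟩
    · apply main i hi
      rw [mem_fD]
      left
      refine ⟨i, hi, ?_⟩
      unfold ln
      cases τ i <;> simp
    · have hcm : c ∈ φ := List.mem_of_getElem? hc
      obtain ⟨h1, h2, h3⟩ := hs c hcm
      rcases hτ c hcm with h | h | h
      · apply main c.1.2 h1
        rw [mem_fD]
        right
        refine ⟨j, c, hc, Or.inl ?_⟩
        rw [h]
      · apply main c.2.1.2 h2
        rw [mem_fD]
        right
        refine ⟨j, c, hc, Or.inr (Or.inl ?_)⟩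
        rw [h]
      · apply main c.2.2.2 h3
        rw [mem_fD]
        right
        refine ⟨j, c, hc, Or.inr (Or.inr ?_)⟩
        rw [h]

/-- the number of the gadget of the head of an arc -/
def gd (n : ℕ) (a : ℕ × ℕ) : ℕ := if a.2 % 4 = 0 then n else a.2 / 4

theorem fD_head {φ : CNF3} {a : ℕ × ℕ} (ha : a ∈ fD φ) : a.2 < 12 * φ.length + 5 := by
  rcases mem_fD.1 ha with ⟨i, hi, rfl | rfl⟩ | ⟨j, c, hc, h⟩
  · simp only; omega
  · simp only; omega
  · have hj : j < φ.length := by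
      by_contra hcon
      rw [List.getElem?_eq_none (not_lt.1 hcon)] at hc
      exact absurd hc (by simp)
    rcases h with rfl | rfl | rfl <;> (simp only; omega)

theorem aug_to_sat (φ : CNF3) (hsm : Small φ) (h : AnyAug (fI φ)) : SAT3 φ := by
  obtain ⟨F, hF, hFV, hK⟩ := h
  change F.length ≤ 3 * φ.length at hF
  change KConn (fD φ ++ F) [0] (fT φ) 1 at hK
  change ∀ a ∈ F, a.1 ∈ List.range (12 * φ.length + 5) ∧ a.2 ∈ List.range (12 * φ.length + 5)
    at hFV
  rw [conn_one] at hK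
  have key : ∀ t ∈ fT φ, ∀ U : Finset ℕ, 0 ∉ U → t ∈ U →
      (∀ a ∈ fD φ, a.2 ∈ U → a.1 ∈ U) → ∃ f ∈ F, f.2 ∈ U := by
    intro t ht U h0 htU hU
    have hne : (0 : ℕ) ≠ t := by
      rintro rfl
      exact h0 htU
    obtain ⟨a, ha, ha1, ha2⟩ := hK 0 (by simp) t ht hne (Finset.range (12 * φ.length + 5) \ U)
      (by simp [h0]) (by simp [htU])
    rw [Finset.mem_sdiff] at ha1 ha2
    rw [not_and, not_not] at ha2
    rw [List.mem_append] at ha
    rcases ha with ha | ha
    · exact absurd (hU a ha (ha2 (Finset.mem_range.2 (fD_head ha)))) ha1.2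
    · exact ⟨a, ha, ha2 (by simpa using (hFV a ha).2)⟩
  -- every gadget contains the head of a new arc
  have hgad : ∀ i < 3 * φ.length, i ∈ F.map (gd (3 * φ.length)) := by
    intro i hi
    obtain ⟨f, hf, hfU⟩ := key (4 * i + 3) (mem_fT.2 (Or.inl ⟨i, hi, rfl⟩))
      {4 * i + 1, 4 * i + 2, 4 * i + 3} (by simp) (by simp) (by
        intro a ha ha2
        rcases mem_fD.1 ha with ⟨i', hi', rfl | rfl⟩ | ⟨j, c, hc, h⟩
        · simp only [Finset.mem_insert, Finset.mem_singleton] at ha2 ⊢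
          omega
        · simp only [Finset.mem_insert, Finset.mem_singleton] at ha2 ⊢
          omega
        · exfalso
          rcases h with rfl | rfl | rfl <;>
          · simp only [Finset.mem_insert, Finset.mem_singleton] at ha2
            omega)
    rw [List.mem_map]
    refine ⟨f, hf, ?_⟩
    simp only [Finset.mem_insert, Finset.mem_singleton] at hfU
    unfold gd
    rw [if_neg (by omega)]
    omega
  have hperm : List.Perm (List.range (3 * φ.length)) (F.map (gd (3 * φ.length))) := by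
    have h1 : (List.range (3 * φ.length)).Subperm (F.map (gd (3 * φ.length))) :=
      List.nodup_range.subperm fun i hi => hgad i (List.mem_range.1 hi)
    exact h1.perm_of_length_le (by simpa using hF)
  have hnd : (F.map (gd (3 * φ.length))).Nodup := hperm.nodup_iff.1 List.nodup_range
  have hlt : ∀ f ∈ F, gd (3 * φ.length) f < 3 * φ.length := by
    intro f hf
    exact List.mem_range.1 (hperm.mem_iff.2 (List.mem_map.2 ⟨f, hf, rfl⟩))
  have hinj : ∀ f ∈ F, ∀ g ∈ F, gd (3 * φ.length) f = gd (3 * φ.length) g → f = g :=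
    fun f hf g hg h => List.inj_on_of_nodup_map hnd hf hg h
  classical
  refine ⟨fun v => decide (∃ f ∈ F, f.2 = 4 * v + 2), ?_⟩
  intro c hc
  obtain ⟨j, hj, hjc⟩ := List.getElem_of_mem hc
  have hjc' : φ[j]? = some c := by rw [List.getElem?_eq_getElem hj, hjc]
  obtain ⟨f, hf, hfU⟩ := key (4 * j + 4) (mem_fT.2 (Or.inr ⟨j, c, hjc', rfl⟩))
    {4 * j + 4, ln c.1, ln c.2.1, ln c.2.2} (by
      have h1 := ln_mod c.1
      have h2 := ln_mod c.2.1
      have h3 := ln_mod c.2.2
      simp only [Finset.mem_insert, Finset.mem_singleton]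
      omega) (by simp) (by
      have h1 := ln_mod c.1
      have h2 := ln_mod c.2.1
      have h3 := ln_mod c.2.2
      intro a ha ha2
      rcases mem_fD.1 ha with ⟨i', hi', rfl | rfl⟩ | ⟨j', c', hc', h⟩
      · exfalso
        simp only [Finset.mem_insert, Finset.mem_singleton] at ha2
        omega
      · exfalso
        simp only [Finset.mem_insert, Finset.mem_singleton] at ha2
        omega
      · have hjj : j' = j := by
          have h4 : a.2 = 4 * j' + 4 := by rcases h with rfl | rfl | rfl <;> rfl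
          simp only [Finset.mem_insert, Finset.mem_singleton] at ha2
          omega
        subst hjj
        rw [hjc', Option.some.injEq] at hc'
        subst hc'
        rcases h with rfl | rfl | rfl <;> simp)
  have hlit : ∀ l : Lit ℕ, f.2 = ln l → decide (∃ f ∈ F, f.2 = 4 * l.2 + 2) = l.1 := by
    intro l hl
    unfold ln at hl
    cases hb : l.1 with
    | true =>
      rw [hb] at hl
      simp only [if_true] at hl
      exact decide_eq_true ⟨f, hf, hl⟩
    | false =>
      rw [hb] at hl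
      simp only [Bool.false_eq_true, if_false] at hl
      apply decide_eq_false
      rintro ⟨g, hg, hg2⟩
      have h1 := hinj f hf g hg (by
        unfold gd
        rw [if_neg (by omega), if_neg (by omega)]
        omega)
      rw [← h1] at hg2
      omega
  simp only [Finset.mem_insert, Finset.mem_singleton] at hfU
  rcases hfU with h | h | h | h
  · exfalso
    have h1 := hlt f hf
    unfold gd at h1
    rw [if_pos (by omega)] at h1
    omega
  · exact Or.inl (hlit _ h)
  · exact Or.inr (Or.inl (hlit _ h))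
  · exact Or.inr (Or.inr (hlit _ h))

theorem poly_ln {α : Type} [TEnc α] {l : α → Lit ℕ} (hl : Poly l) : Poly (fun a => ln (l a)) := by
  unfold ln
  fun_prop

attribute [fun_prop] poly_ln
attribute [local irreducible] ln

theorem poly_fI : Poly fI := by
  unfold fI fV fD fT
  have h1 : UPoly (fun φ : CNF3 => 3 * φ.length) :=
    (UPoly.const 3).mul (UPoly.length Poly.id)
  have h2 : UPoly (fun φ : CNF3 => 12 * φ.length + 5) :=
    ((UPoly.const 12).mul (UPoly.length Poly.id)).add (UPoly.const 5)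
  have h3 : Poly (fun φ : CNF3 => List.range (3 * φ.length)) := h1.range
  have h4 : Poly (fun φ : CNF3 => List.range (12 * φ.length + 5)) := h2.range
  fun_prop

theorem hardI_anyAug : HardI AnyAug :=
  (HardPr.trans (Pr' := fun _ => True) hardPr_small poly_fI (fun _ _ => trivial)
    fun φ hφ => ⟨sat_to_aug φ hφ, aug_to_sat φ hφ⟩).toHardI

/-- the instance with the single source `0` and `k = 1` -/
def fJ (φ : CNF3) : List ℕ × List (ℕ × ℕ) × ℕ × List ℕ × ℕ :=
  (fV φ, fD φ, 0, fT φ, 3 * φ.length)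

theorem poly_fJ : Poly fJ := by
  unfold fJ fV fD fT
  have h1 : UPoly (fun φ : CNF3 => 3 * φ.length) :=
    (UPoly.const 3).mul (UPoly.length Poly.id)
  have h2 : UPoly (fun φ : CNF3 => 12 * φ.length + 5) :=
    ((UPoly.const 12).mul (UPoly.length Poly.id)).add (UPoly.const 5)
  have h3 : Poly (fun φ : CNF3 => List.range (3 * φ.length)) := h1.range
  have h4 : Poly (fun φ : CNF3 => List.range (12 * φ.length + 5)) := h2.range
  fun_prop

theorem hardI_one : HardI (fun x : List ℕ × List (ℕ × ℕ) × ℕ × List ℕ × ℕ =>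
    AnyAug (x.1, x.2.1, [x.2.2.1], x.2.2.2.1, 1, x.2.2.2.2)) :=
  (HardPr.trans (Pr' := fun _ => True) hardPr_small poly_fJ (fun _ _ => trivial)
    fun φ hφ => ⟨sat_to_aug φ hφ, aug_to_sat φ hφ⟩).toHardI

end Pool.Agent.H685R2.STA
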