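import Pool.Agent.H685R2.STA.Srch

namespace Pool.Agent.H685R2.STA

theorem aug_dout_rem (C : List (ℕ × ℕ)) (a : ℕ × ℕ) (ha : a ∈ C) (Y : Finset ℕ) :
    dout C Y = dout (rem a C) Y + (if lv a Y then 1 else 0) := by
  have hp := List.filter_append_perm (fun b => decide (b = a)) C
  have hm : a ∈ C.filter (fun b => decide (b = a)) := by
    rw [List.mem_filter]
    exact ⟨ha, by simp⟩
  obtain ⟨x, tl, hx⟩ : ∃ x tl, C.filter (fun b => decide (b = a)) = x :: tl := by
    cases h : C.filter (fun b => decide (b = a)) with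
    | nil => rw [h] at hm; simp at hm
    | cons x tl => exact ⟨x, tl, rfl⟩
  have hxa : x = a := by
    have h1 : x ∈ C.filter (fun b => decide (b = a)) := by rw [hx]; simp
    rw [List.mem_filter] at h1
    simpa using h1.2
  unfold dout rem
  rw [← hp.countP_eq, hx, List.countP_append, List.countP_append, List.tail_cons,
    List.countP_cons, hxa]
  have h2 : (if decide (lv a Y) = true then 1 else 0) = (if lv a Y then 1 else 0) := by
    by_cases h : lv a Y <;> simp [h]
  rw [h2]
  omega

theorem dout_push (C : List (ℕ × ℕ)) (a : ℕ × ℕ) (ha : a ∈ C) (Y : Finset ℕ) :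
    dout (push a C) Y + (if a.1 ∈ Y then 1 else 0) =
      dout C Y + (if a.2 ∈ Y then 1 else 0) := by
  have h1 := aug_dout_rem C a ha Y
  have h2 : dout (push a C) Y = dout (rem a C) Y + (if lv (a.2, a.1) Y then 1 else 0) := by
    unfold push
    rw [if_pos ha]
    unfold dout
    rw [List.countP_cons]
    have h3 : (if decide (lv (a.2, a.1) Y) = true then 1 else 0) =
        (if lv (a.2, a.1) Y then 1 else 0) := by
      by_cases h : lv (a.2, a.1) Y <;> simp [h]
    rw [h3]
  rw [h1, h2]
  unfold lv
  by_cases h3 : a.1 ∈ Y <;> by_cases h4 : a.2 ∈ Y <;> simp [h3, h4]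

theorem aug_mem_push {C : List (ℕ × ℕ)} {a b : ℕ × ℕ} (hb : b ∈ C) (hne : b ≠ a) :
    b ∈ push a C := by
  unfold push
  split_ifs with h
  · apply List.mem_cons_of_mem
    unfold rem
    apply List.mem_append_left
    rw [List.mem_filter]
    exact ⟨hb, by simp [hne]⟩
  · exact hb

theorem aug_good_mem {C : List (ℕ × ℕ)} {s : ℕ} {Tr : List (ℕ × ℕ)} (h : GoodTree C s Tr) :
    ∀ b ∈ Tr, b ∈ C := by
  induction Tr with
  | nil => intro b hb; simp at hb
  | cons a Tr ih =>
    intro b hb
    rcases List.mem_cons.1 hb with rfl | hb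
    · exact h.2.1
    · exact ih h.1 b hb

theorem aug_fold (C0 : List (ℕ × ℕ)) (s : ℕ) (Tr : List (ℕ × ℕ)) :
    ∀ (cur : ℕ) (C' : List (ℕ × ℕ)), GoodTree C0 s Tr → (∀ b ∈ Tr, b ∈ C') →
      cur ∈ reach s Tr → ∀ Y : Finset ℕ,
      dout (Tr.foldl back (cur, C')).2 Y + (if s ∈ Y then 1 else 0) =
        dout C' Y + (if cur ∈ Y then 1 else 0) := by
  induction Tr with
  | nil =>
    intro cur C' _ _ hcur Y
    have h1 : cur = s := by simpa [reach] using hcur
    rw [h1]
    rfl
  | cons a Tr ih =>
    intro cur C' hG hC hcur Y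
    obtain ⟨hG1, -, hG3, hG4⟩ := hG
    rw [List.foldl_cons]
    by_cases h : a.2 = cur
    · have hb : back (cur, C') a = (a.1, push a C') := by
        unfold back
        exact if_pos h
      rw [hb]
      have h1 : ∀ b ∈ Tr, b ∈ push a C' := by
        intro b hbT
        refine aug_mem_push (hC b (List.mem_cons_of_mem _ hbT)) ?_
        rintro rfl
        exact hG4 (List.mem_cons_of_mem _ (List.mem_map_of_mem hbT))
      have h2 := ih a.1 (push a C') hG1 h1 hG3 Y
      have h3 := dout_push C' a (hC a List.mem_cons_self) Y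
      rw [h] at h3
      rw [h2]
      exact h3
    · have hb : back (cur, C') a = (cur, C') := by
        unfold back
        exact if_neg h
      rw [hb]
      have h1 : cur ∈ reach s Tr := by
        unfold reach at hcur ⊢
        rw [List.map_cons] at hcur
        rcases List.mem_cons.1 hcur with h2 | h2
        · rw [h2]; exact List.mem_cons_self
        · rcases List.mem_cons.1 h2 with h3 | h3
          · exact absurd h3.symm h
          · exact List.mem_cons_of_mem _ h3
      exact ih cur C' hG1 (fun b hb => hC b (List.mem_cons_of_mem _ hb)) h1 Y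

theorem aug_of_mem (s t : ℕ) (C : List (ℕ × ℕ)) (hst : s ≠ t)
    (h : t ∈ reach s (tree C s)) (Y : Finset ℕ) (hs : s ∈ Y) (ht : t ∉ Y) :
    dout (aug s t C) Y + 1 = dout C Y := by
  have h1 := aug_fold C s (tree C s) t C (tree_good C s) (aug_good_mem (tree_good C s)) h Y
  rw [if_pos hs, if_neg ht, add_zero] at h1
  unfold aug
  rw [if_pos h]
  exact h1

end Pool.Agent.H685R2.STA
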