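import Pool.Agent.H685R2.STA.FJ
import Pool.Agent.H685R2.STA.WD

namespace Pool.Agent.H685R2.STA

theorem big_indep_mono {P : List (ℕ × ℕ)} {I J : Multiset (Finset ℕ)} (h : I ≤ J)
    (hJ : Indep P J) : Indep P I := by
  refine ⟨fun X hX => hJ.1 X (Multiset.mem_of_le h hX), fun a ha => ?_⟩
  exact le_trans (Multiset.countP_le_of_le _ h) (hJ.2 a ha)

theorem big_take {ι : Type*} (J : Multiset ι) (n : ℕ) (h : n ≤ J.card) :
    ∃ J' ≤ J, J'.card = n := by
  refine ⟨((J.toList.take n : List ι) : Multiset ι), ?_, ?_⟩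
  · conv_rhs => rw [← Multiset.coe_toList J]
    exact Multiset.coe_le.2 (List.take_sublist n J.toList).subperm
  · rw [Multiset.coe_card, List.length_take, Multiset.length_toList]
    omega

theorem big_exists (D : List (ℕ × ℕ)) (S T : List ℕ) (k n : ℕ)
    (h : ∀ m, Opt D (pairs S T) k m → n ≤ m) :
    ∃ I, Indep (pairs S T) I ∧ (n : ℤ) ≤ dem D k I := by
  rcases Nat.eq_zero_or_pos n with rfl | hn
  · refine ⟨0, ⟨fun X hX => absurd hX (Multiset.notMem_zero X), fun a _ => ?_⟩, ?_⟩
    · simp [cv]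
    · simp [dem]
  · by_contra hc
    push Not at hc
    have h1 : Opt D (pairs S T) k (n - 1) := by
      apply frank_jordan
      intro I hI
      have := hc I hI
      push_cast [Nat.cast_sub hn]
      omega
    have := h _ h1
    omega

theorem big_dem (D : List (ℕ × ℕ)) (k : ℕ) (I : Multiset (Finset ℕ)) :
    dem D k I = (k : ℤ) * I.card - (I.map fun X => (dout D X : ℤ)).sum := by
  unfold dem
  rw [Multiset.sum_map_sub, Multiset.map_const', Multiset.sum_replicate]
  simp
  ring

theorem big_dout_sum (D : List (ℕ × ℕ)) (I : Multiset (Finset ℕ)) :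
    (I.map fun X => (dout D X : ℤ)).sum ≤ I.card * D.length := by
  have : (I.map fun X => (dout D X : ℤ)).sum ≤ (I.map fun _ => (D.length : ℤ)).sum := by
    apply Multiset.sum_map_le_sum_map
    intro X _
    exact_mod_cast List.countP_le_length
  refine this.trans ?_
  simp

theorem big_dout_nonneg (D : List (ℕ × ℕ)) (I : Multiset (Finset ℕ)) :
    0 ≤ (I.map fun X => (dout D X : ℤ)).sum := by
  apply Multiset.sum_nonneg
  intro x hx
  obtain ⟨X, _, rfl⟩ := Multiset.mem_map.1 hx
  positivity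

theorem big_k (D : List (ℕ × ℕ)) (S T : List ℕ) (K0 k n1 n2 m : ℕ)
    (hK0 : D.length * (pairs S T).length ≤ K0) (hk : K0 ≤ k)
    (h1 : ∀ m, Opt D (pairs S T) K0 m → n1 ≤ m) (h2 : ∀ m, Opt [] (pairs S T) 1 m → n2 ≤ m)
    (hm : Opt D (pairs S T) k m) : n1 + (k - K0) * n2 ≤ m := by
  obtain ⟨I1, hI1, hn1⟩ := big_exists D S T K0 n1 h1
  obtain ⟨J, hJ, hn2⟩ := big_exists [] S T 1 n2 h2
  have hJc : n2 ≤ J.card := by
    rw [big_dem] at hn2
    have h0 := big_dout_nonneg [] J
    have : (n2 : ℤ) ≤ J.card := by push_cast at hn2; linarith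
    exact_mod_cast this
  have key : ∃ I, Indep (pairs S T) I ∧ (n1 : ℤ) ≤ dem D K0 I ∧ n2 ≤ I.card := by
    by_cases hc : n2 ≤ I1.card
    · exact ⟨I1, hI1, hn1, hc⟩
    · push Not at hc
      obtain ⟨J', hJ', hJ'c⟩ := big_take J n2 hJc
      have hind := big_indep_mono hJ' hJ
      have hN := indep_card (pairs S T) J' hind
      refine ⟨J', hind, hn1.trans ?_, hJ'c.ge⟩
      rw [big_dem, big_dem]
      have e1 := big_dout_nonneg D I1
      have e2 := big_dout_sum D J'
      rw [hJ'c] at e2 hN ⊢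
      have e3 : (n2 : ℤ) * D.length ≤ K0 := by
        have : n2 * D.length ≤ K0 := by
          calc n2 * D.length ≤ (pairs S T).length * D.length := Nat.mul_le_mul_right _ hN
            _ = D.length * (pairs S T).length := Nat.mul_comm _ _
            _ ≤ K0 := hK0
        exact_mod_cast this
      have e4 : (K0 : ℤ) * I1.card ≤ K0 * (n2 - 1) := by
        apply mul_le_mul_of_nonneg_left _ (by positivity)
        have : (I1.card : ℤ) + 1 ≤ n2 := by exact_mod_cast hc
        linarith
      nlinarith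
  obtain ⟨I, hI, hd, hc⟩ := key
  have hw := weak_duality D (pairs S T) k m hm I hI
  rw [big_dem] at hw hd
  have e5 : ((k : ℤ) - K0) * n2 ≤ ((k : ℤ) - K0) * I.card := by
    apply mul_le_mul_of_nonneg_left
    · exact_mod_cast hc
    · have : (K0 : ℤ) ≤ k := by exact_mod_cast hk
      linarith
  have : ((n1 + (k - K0) * n2 : ℕ) : ℤ) ≤ m := by
    push_cast [Nat.cast_sub hk]
    linarith
  exact_mod_cast this

end Pool.Agent.H685R2.STA
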