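import Pool.Agent.H685R2.STA.Dec

namespace Pool.Agent.H685R2.STA

namespace Bld

theorem dout_append (D F : List (ℕ × ℕ)) (X : Finset ℕ) :
    dout (D ++ F) X = dout D X + dout F X := by
  simp [dout, List.countP_append]

theorem dout_perm {D F : List (ℕ × ℕ)} (h : D.Perm F) (X : Finset ℕ) : dout D X = dout F X :=
  h.countP_eq _

theorem cov_perm {D F P : List (ℕ × ℕ)} {k : ℕ} (h : D.Perm F) (hc : Cov D P k) : Cov F P k := by
  intro a ha X hX
  rw [← dout_perm h]
  exact hc a ha X hX

theorem opt_mono {D P : List (ℕ × ℕ)} {k m m' : ℕ} (h : Opt D P k m) (hm : m ≤ m') :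
    Opt D P k m' := by
  obtain ⟨F, h1, h2, h3⟩ := h
  exact ⟨F, h1, h2.trans hm, h3⟩

theorem dout_flatten (P : List (ℕ × ℕ)) (k : ℕ) (X : Finset ℕ) :
    dout (List.replicate k P).flatten X = k * dout P X := by
  induction k with
  | zero => simp [dout]
  | succ k ih =>
    rw [List.replicate_succ, List.flatten_cons, dout_append, ih]
    ring

theorem opt_top (D P : List (ℕ × ℕ)) (k : ℕ) : Opt D P k (P.length * k) := by
  refine ⟨(List.replicate k P).flatten, ?_, ?_, ?_⟩
  · intro a ha
    rw [List.mem_flatten] at ha
    obtain ⟨l, hl, hal⟩ := ha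
    rw [List.mem_replicate] at hl
    exact hl.2 ▸ hal
  · simp [List.length_flatten, mul_comm]
  · intro a ha X hX
    rw [dout_append, dout_flatten]
    have h1 : 1 ≤ dout P X := by
      unfold dout
      exact List.countP_pos_iff.2 ⟨a, ha, by simpa using hX⟩
    nlinarith [Nat.zero_le (dout D X)]

theorem opt_step {D P F : List (ℕ × ℕ)} {k j : ℕ} (h : Opt (D ++ F) P k (j + 1)) (hP : P ≠ []) :
    ∃ a ∈ P, Opt (D ++ a :: F) P k j := by
  obtain ⟨G, h1, h2, h3⟩ := h
  match G, h1, h2, h3 with
  | [], h1, h2, h3 =>
    obtain ⟨a, ha⟩ := List.exists_mem_of_ne_nil P hP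
    refine ⟨a, ha, [], by simp, by simp, ?_⟩
    intro b hb X hX
    have := h3 b hb X hX
    simp only [List.append_nil] at this ⊢
    have e : D ++ a :: F = (D ++ [a]) ++ F := by simp
    rw [e, dout_append, dout_append]
    rw [dout_append] at this
    omega
  | a :: G, h1, h2, h3 =>
    refine ⟨a, h1 a (by simp), G, fun b hb => h1 b (by simp [hb]), by simpa using h2, ?_⟩
    refine cov_perm ?_ h3
    have e : D ++ a :: F ++ G = D ++ ((a :: F) ++ G) := by simp
    have e' : D ++ F ++ a :: G = D ++ (F ++ (a :: G)) := by simp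
    rw [e, e']
    refine List.Perm.append_left D ?_
    have : (F ++ a :: G).Perm (a :: (F ++ G)) := List.perm_middle
    exact this

theorem build_spec (D P : List (ℕ × ℕ)) (K : List Unit)
    (hdec : ∀ (D : List (ℕ × ℕ)) (B : ℕ), dec D P K B = true ↔ Opt D P K.length B) (B : ℕ) :
    ∀ F : List (ℕ × ℕ), (∀ a ∈ F, a ∈ P) → Opt (D ++ F) P K.length B →
      (∀ a ∈ (List.range B).foldr (fun j F =>
        (P.filter fun a => dec (D ++ a :: F) P K j).head?.elim F fun a => a :: F) F, a ∈ P) ∧
      ((List.range B).foldr (fun j F =>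
        (P.filter fun a => dec (D ++ a :: F) P K j).head?.elim F fun a => a :: F) F).length
          ≤ F.length + B ∧
      Opt (D ++ (List.range B).foldr (fun j F =>
        (P.filter fun a => dec (D ++ a :: F) P K j).head?.elim F fun a => a :: F) F)
          P K.length 0 := by
  induction B with
  | zero =>
    intro F hF h
    simp only [List.range_zero, List.foldr_nil]
    exact ⟨hF, by omega, h⟩
  | succ B ih =>
    intro F hF h
    rw [List.range_succ, List.foldr_append, List.foldr_cons, List.foldr_nil]
    rcases hh : (P.filter fun a => dec (D ++ a :: F) P K B).head? with _ | a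
    · -- no choice: `P` is empty
      have hP : P = [] := by
        by_contra hP
        obtain ⟨a, ha, ho⟩ := opt_step h hP
        rw [List.head?_eq_none_iff, List.filter_eq_nil_iff] at hh
        exact hh a ha ((hdec _ _).2 ho)
      simp only [Option.elim_none]
      have h' : Opt (D ++ F) P K.length B := by
        subst hP
        exact ⟨[], by simp, by simp, by intro a ha; simp at ha⟩
      obtain ⟨h1, h2, h3⟩ := ih F hF h'
      exact ⟨h1, by omega, h3⟩
    · simp only [Option.elim_some]
      have hmem : a ∈ P.filter fun a => dec (D ++ a :: F) P K B :=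
        List.mem_of_mem_head? (by rw [hh]; rfl)
      rw [List.mem_filter] at hmem
      obtain ⟨h1, h2, h3⟩ := ih (a :: F) (by
        intro b hb
        rcases List.mem_cons.1 hb with rfl | hb
        · exact hmem.1
        · exact hF b hb) ((hdec _ _).1 hmem.2)
      refine ⟨h1, ?_, h3⟩
      have : (a :: F).length = F.length + 1 := by simp
      omega

theorem optv_spec (D P : List (ℕ × ℕ)) (K : List Unit)
    (hdec : ∀ B : ℕ, dec D P K B = true ↔ Opt D P K.length B) :
    Opt D P K.length (optv D P K) ∧ ∀ m, Opt D P K.length m → optv D P K ≤ m := by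
  unfold optv
  rw [List.head?_filter]
  rcases hf : List.find? (fun B => dec D P K B) (List.range (P.length * K.length + 1)) with _ | b
  · exfalso
    rw [List.find?_eq_none] at hf
    exact hf (P.length * K.length) (by simp) ((hdec _).2 (opt_top D P K.length))
  · have h := hf
    rw [List.find?_range_eq_some] at h
    obtain ⟨h1, h2, h3⟩ := h
    simp only [Option.getD_some]
    refine ⟨(hdec _).1 h1, fun m hm => ?_⟩
    by_contra hlt
    have := h3 m (by omega)
    rw [(hdec m).2 hm] at this
    simp at this

end Bld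

theorem sol_spec (D : List (ℕ × ℕ)) (S T : List ℕ) (K : List Unit) :
    (∀ a ∈ sol D (pairs S T) K, a ∈ pairs S T) ∧
      Cov (D ++ sol D (pairs S T) K) (pairs S T) K.length ∧
      ∀ m, Opt D (pairs S T) K.length m → (sol D (pairs S T) K).length ≤ m := by
  obtain ⟨h1, h2⟩ := Bld.optv_spec D (pairs S T) K fun B => dec_iff D S T K B
  obtain ⟨h3, h4, h5⟩ := Bld.build_spec D (pairs S T) K (fun D B => dec_iff D S T K B)
    (optv D (pairs S T) K) [] (by simp) (by simpa using h1)
  refine ⟨h3, ?_, fun m hm => ?_⟩
  · obtain ⟨F, -, hF, hc⟩ := h5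
    have : F = [] := by
      rw [← List.length_eq_zero_iff]
      omega
    subst this
    rw [List.append_nil] at hc
    exact hc
  · have h6 := h2 m hm
    have h7 : (sol D (pairs S T) K).length ≤ ([] : List (ℕ × ℕ)).length + optv D (pairs S T) K := h4
    simp only [List.length_nil, zero_add] at h7
    exact h7.trans h6

end Pool.Agent.H685R2.STA
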