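import Pool.Agent.H685R2.STA.Defs

namespace Pool.Agent.H685R2.STA

theorem col_mem_pairs (S T : List ℕ) (a : ℕ × ℕ) :
    a ∈ pairs S T ↔ (a.1 ∈ S ∧ a.2 ∈ T) ∧ a.1 ≠ a.2 := by
  obtain ⟨s, t⟩ := a
  simp [pairs, List.mem_filter, List.mem_flatMap, List.mem_map]

theorem col_cv_mono (a b : ℕ × ℕ) (M : Multiset (Finset ℕ))
    (h : ∀ X ∈ M, lv a X → lv b X) : cv a M ≤ cv b M := by
  unfold cv
  induction M using Multiset.induction_on with
  | empty => simp
  | cons X M ih =>
    have ih' := ih fun Y hY => h Y (Multiset.mem_cons_of_mem hY)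
    rw [Multiset.countP_cons, Multiset.countP_cons]
    by_cases h1 : lv a X
    · have h2 := h X (Multiset.mem_cons_self X M) h1
      simp only [h1, h2, if_true]
      omega
    · simp only [h1, if_false]
      split_ifs <;> omega

theorem col_cv_pos (a : ℕ × ℕ) (M : Multiset (Finset ℕ)) (X : Finset ℕ) (hX : X ∈ M)
    (h : lv a X) : 1 ≤ cv a M := by
  unfold cv
  exact Multiset.countP_pos.2 ⟨X, hX, h⟩

theorem colour (S T : List ℕ) (h : ℕ) (M : Multiset (Finset ℕ)) (hM : InC (pairs S T) M)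
    (hc : ∀ a ∈ pairs S T, cv a M ≤ h) (hx : Unx (pairs S T) M) :
    ∃ f : Fin h → Multiset (Finset ℕ), (∀ i, Indep (pairs S T) (f i)) ∧ ∑ i, f i = M := by
  classical
  induction h generalizing M with
  | zero =>
    have h0 : M = 0 := by
      rw [Multiset.eq_zero_iff_forall_notMem]
      intro X hX
      obtain ⟨a, ha, hl⟩ := hM X hX
      have h1 := hc a ha
      have h2 := col_cv_pos a M X hX hl
      omega
    exact ⟨fun i => i.elim0, fun i => i.elim0, by simp [h0]⟩
  | succ h ih =>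
    let M0f : Finset (Finset ℕ) := M.toFinset.filter (fun X => ∀ Y ∈ M, Y ⊆ X → Y = X)
    let M0 : Multiset (Finset ℕ) := M0f.val
    have hM0le : M0 ≤ M := by
      show (M.toFinset.filter _).val ≤ M
      rw [Finset.filter_val]
      exact (Multiset.filter_le _ _).trans (by rw [Multiset.toFinset_val]; exact Multiset.dedup_le M)
    have hsum : M0 + (M - M0) = M := add_tsub_cancel_of_le hM0le
    have hM1 : ∀ X ∈ M - M0, X ∈ M := fun X hX => Multiset.mem_of_le tsub_le_self hX
    have hmem0 : ∀ X, X ∈ M0 ↔ X ∈ M ∧ ∀ Y ∈ M, Y ⊆ X → Y = X := by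
      intro X
      show X ∈ M0f.val ↔ _
      rw [Finset.mem_val, Finset.mem_filter, Multiset.mem_toFinset]
    have hcv : ∀ a, cv a M = cv a M0 + cv a (M - M0) := by
      intro a
      conv_lhs => rw [← hsum]
      unfold cv
      exact Multiset.countP_add _ _ _
    have hind : Indep (pairs S T) M0 := by
      refine ⟨fun X hX => hM X ((hmem0 X).1 hX).1, fun a ha => ?_⟩
      have h1 : cv a M0 = (M0f.filter fun X => lv a X).card := by
        unfold cv
        rw [Multiset.countP_eq_card_filter]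
        rfl
      rw [h1, Finset.card_le_one]
      intro X hX Y hY
      rw [Finset.mem_filter] at hX hY
      have hX' := (hmem0 X).1 hX.1
      have hY' := (hmem0 Y).1 hY.1
      rcases hx X hX'.1 Y hY'.1 ⟨a, ha, hX.2, hY.2⟩ with h2 | h2
      · exact hY'.2 X hX'.1 h2
      · exact (hX'.2 Y hY'.1 h2).symm
    have hc1 : ∀ a ∈ pairs S T, cv a (M - M0) ≤ h := by
      intro a ha
      by_contra hcon
      have hcon' : h + 1 ≤ cv a (M - M0) := by omega
      have hne : ((M - M0).toFinset.filter fun X => lv a X).Nonempty := by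
        have h1 : 0 < cv a (M - M0) := by omega
        unfold cv at h1
        obtain ⟨X, hX, hl⟩ := Multiset.countP_pos.1 h1
        exact ⟨X, by rw [Finset.mem_filter, Multiset.mem_toFinset]; exact ⟨hX, hl⟩⟩
      obtain ⟨X, hX, hmin⟩ := Finset.exists_min_image _ Finset.card hne
      rw [Finset.mem_filter, Multiset.mem_toFinset] at hX
      have hsub : ∀ Z ∈ M - M0, lv a Z → X ⊆ Z := by
        intro Z hZ hl
        have h2 := hmin Z (by rw [Finset.mem_filter, Multiset.mem_toFinset]; exact ⟨hZ, hl⟩)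
        rcases hx X (hM1 X hX.1) Z (hM1 Z hZ) ⟨a, ha, hX.2, hl⟩ with h3 | h3
        · exact h3
        · rw [Finset.eq_of_subset_of_card_le h3 h2]
      have hne2 : (M.toFinset.filter fun Y => Y ⊆ X).Nonempty :=
        ⟨X, by rw [Finset.mem_filter, Multiset.mem_toFinset]; exact ⟨hM1 X hX.1, subset_rfl⟩⟩
      obtain ⟨Y, hY, hmin2⟩ := Finset.exists_min_image _ Finset.card hne2
      rw [Finset.mem_filter, Multiset.mem_toFinset] at hY
      have hY0 : Y ∈ M0 := by
        rw [hmem0]
        refine ⟨hY.1, fun Z hZ hZY => ?_⟩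
        have h2 := hmin2 Z (by
          rw [Finset.mem_filter, Multiset.mem_toFinset]; exact ⟨hZ, hZY.trans hY.2⟩)
        exact Finset.eq_of_subset_of_card_le hZY h2
      obtain ⟨b, hb, hbY⟩ := hM Y hY.1
      have hb' := (col_mem_pairs S T b).1 hb
      have ha' := (col_mem_pairs S T a).1 ha
      have hbX : b.1 ∈ X := hY.2 hbY.1
      have haX : a.2 ∉ X := hX.2.2
      have hneq : b.1 ≠ a.2 := fun h => haX (h ▸ hbX)
      have hc2 : (b.1, a.2) ∈ pairs S T := (col_mem_pairs S T _).2 ⟨⟨hb'.1.1, ha'.1.2⟩, hneq⟩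
      have h3 := hc _ hc2
      rw [hcv] at h3
      have h4 : 1 ≤ cv (b.1, a.2) M0 :=
        col_cv_pos _ M0 Y hY0 ⟨hbY.1, fun h => haX (hY.2 h)⟩
      have h5 : cv a (M - M0) ≤ cv (b.1, a.2) (M - M0) :=
        col_cv_mono _ _ _ fun Z hZ hl => ⟨hsub Z hZ hl hbX, hl.2⟩
      omega
    obtain ⟨f, hf, hfs⟩ := ih (M - M0) (fun X hX => hM X (hM1 X hX)) hc1
      (fun X hX Y hY hXY => hx X (hM1 X hX) Y (hM1 Y hY) hXY)
    refine ⟨Fin.cons M0 f, fun i => ?_, ?_⟩
    · refine Fin.cases ?_ (fun j => ?_) i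
      · rw [Fin.cons_zero]
        exact hind
      · rw [Fin.cons_succ]
        exact hf j
    · rw [Fin.sum_cons, hfs, hsum]

end Pool.Agent.H685R2.STA
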