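import Pool.Agent.H685R2.STA.Aug

namespace Pool.Agent.H685R2.STA

theorem aug_iter (C : List (ℕ × ℕ)) (s t : ℕ) (hst : s ≠ t) (n : ℕ) :
    ∃ j : ℕ, (∀ Y : Finset ℕ, s ∈ Y → t ∉ Y → dout ((aug s t)^[n] C) Y + j = dout C Y) ∧
      (j = n ∨ t ∉ reach s (tree ((aug s t)^[n] C) s)) := by
  induction n with
  | zero => exact ⟨0, fun Y _ _ => rfl, Or.inl rfl⟩
  | succ n ih =>
    obtain ⟨j, h1, h2⟩ := ih
    rw [Function.iterate_succ_apply']
    by_cases h3 : t ∈ reach s (tree ((aug s t)^[n] C) s)
    · rcases h2 with h2 | h2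
      · refine ⟨j + 1, fun Y hs ht => ?_, Or.inl (by omega)⟩
        have h4 := aug_of_mem s t ((aug s t)^[n] C) hst h3 Y hs ht
        have h5 := h1 Y hs ht
        omega
      · exact absurd h3 h2
    · have h4 : aug s t ((aug s t)^[n] C) = (aug s t)^[n] C := by
        rw [aug]
        rw [if_neg h3]
      rw [h4]
      exact ⟨j, h1, Or.inr h3⟩

theorem cutL_spec (C : List (ℕ × ℕ)) (s t : ℕ) (hst : s ≠ t) :
    s ∈ cutL C s t ∧ t ∉ cutL C s t ∧ ∀ Y : Finset ℕ, s ∈ Y → t ∉ Y →
      (leave C (cutL C s t)).length ≤ dout C Y := by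
  obtain ⟨j, h1, h2⟩ := aug_iter C s t hst C.length
  have hs : s ∈ cutL C s t := by
    unfold cutL reach
    exact List.mem_cons_self
  have ht : t ∉ cutL C s t := by
    unfold cutL flow
    rcases h2 with h2 | h2
    · have h3 := h1 {s} (Finset.mem_singleton_self s) (by
        rw [Finset.mem_singleton]
        exact fun h => hst h.symm)
      have h4 : dout C {s} ≤ C.length := List.countP_le_length
      have h5 : dout ((aug s t)^[C.length] C) {s} = 0 := by omega
      rw [tree_nil _ s h5]
      unfold reach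
      simp only [List.map_nil, List.mem_singleton]
      exact fun h => hst h.symm
    · exact h2
  refine ⟨hs, ht, fun Y hsY htY => ?_⟩
  have h3 := h1 (cutL C s t).toFinset (List.mem_toFinset.2 hs)
    (fun h => ht (List.mem_toFinset.1 h))
  have h4 := h1 Y hsY htY
  have h5 : dout ((aug s t)^[C.length] C) (cutL C s t).toFinset = 0 := by
    rw [← leave_length]
    unfold cutL flow
    rw [tree_closed]
    rfl
  rw [leave_length]
  omega

end Pool.Agent.H685R2.STA
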