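import Pool.Agent.H685R2.STA.Hist
import Pool.Agent.H685R2.STA.WD

namespace Pool.Agent.H685R2.STA

theorem mwu_wt_cons (M : ℕ) (X : Finset ℕ) (Xs : List (Finset ℕ)) (a : ℕ × ℕ) :
    wt M (X :: Xs) a = (if lv a X then M + 1 else M) * wt M Xs a := by
  unfold wt
  rw [List.map_cons, List.prod_cons]

theorem mwu_wt_pos {M : ℕ} (hM : 0 < M) (Xs : List (Finset ℕ)) (a : ℕ × ℕ) : 0 < wt M Xs a := by
  induction Xs with
  | nil => simp [wt]
  | cons X Xs ih =>
    rw [mwu_wt_cons]
    apply Nat.mul_pos _ ih
    split_ifs <;> omega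

theorem mwu_sum_cons (P : List (ℕ × ℕ)) (M : ℕ) (X : Finset ℕ) (g : ℕ × ℕ → ℕ) :
    (P.map fun a => (if lv a X then M + 1 else M) * g a).sum =
      M * (P.map g).sum + ((P.filter fun a => decide (lv a X)).map g).sum := by
  induction P with
  | nil => simp
  | cons a P ih =>
    rw [List.map_cons, List.sum_cons, ih, List.map_cons, List.sum_cons, List.filter_cons]
    by_cases h : lv a X
    · rw [if_pos h, if_pos (by simpa using h), List.map_cons, List.sum_cons]
      ring
    · rw [if_neg h, if_neg (by simpa using h)]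
      ring

theorem mwu_W_cons (P : List (ℕ × ℕ)) (M : ℕ) (X : Finset ℕ) (Xs : List (Finset ℕ)) :
    (P.map (wt M (X :: Xs))).sum = M * (P.map (wt M Xs)).sum +
      ((P.filter fun a => decide (lv a X)).map (wt M Xs)).sum := by
  rw [← mwu_sum_cons]
  congr 1

theorem mwu_floor (Z B W : ℕ) (hW : 0 < W) (Q : List (ℕ × ℕ)) (w : ℕ × ℕ → ℕ)
    (hw : ∀ a ∈ Q, w a ≤ W) :
    (B : ℝ) * (Z * ((Q.map w).sum : ℕ) / W - Q.length) ≤
      (((Q.map fun a => B * min Z (Z * w a / W)).sum : ℕ) : ℝ) := by
  induction Q with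
  | nil => simp
  | cons a Q ih =>
    have ih' := ih fun b hb => hw b (List.mem_cons_of_mem _ hb)
    rw [List.map_cons, List.sum_cons, List.map_cons, List.sum_cons, List.length_cons]
    have hle : Z * w a / W ≤ Z := by
      apply Nat.div_le_of_le_mul
      rw [mul_comm W Z]
      exact Nat.mul_le_mul_left _ (hw a List.mem_cons_self)
    rw [min_eq_right hle]
    push_cast
    have hWr : (0 : ℝ) < W := by exact_mod_cast hW
    have h1 : (Z : ℝ) * w a / W - 1 ≤ ((Z * w a / W : ℕ) : ℝ) := by
      have h2 := Nat.lt_succ_floor ((Z * w a : ℕ) / (W : ℝ))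
      rw [Nat.floor_div_eq_div] at h2
      push_cast at h2
      linarith
    have hB : (0 : ℝ) ≤ B := Nat.cast_nonneg B
    have h3 : (B : ℝ) * (Z * w a / W - 1) ≤ B * ((Z * w a / W : ℕ) : ℝ) :=
      mul_le_mul_of_nonneg_left h1 hB
    have h4 : (B : ℝ) * (Z * ((w a : ℝ) + ((Q.map w).sum : ℕ)) / W - (Q.length + 1)) =
        B * (Z * w a / W - 1) + B * (Z * ((Q.map w).sum : ℕ) / W - Q.length) := by
      field_simp
      ring
    push_cast at h4 ih'
    rw [h4]
    linarith

theorem mwu_step (D P : List (ℕ × ℕ)) (k B : ℕ) (X : Finset ℕ) (Xs : List (Finset ℕ))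
    (hP : 0 < P.length) (hM : 0 < 2 * P.length * k)
    (h : P.length * (prec P.length B * dout D X +
        ((P.filter fun a => decide (lv a X)).map fun a => B * min (prec P.length B)
          (prec P.length B * wt (2 * P.length * k) Xs a /
            (P.map (wt (2 * P.length * k) Xs)).sum)).sum) + prec P.length B ≤
      P.length * prec P.length B * k) :
    (B : ℝ) * (((P.filter fun a => decide (lv a X)).map (wt (2 * P.length * k) Xs)).sum : ℕ) /
      ((P.map (wt (2 * P.length * k) Xs)).sum : ℕ) ≤
      (k : ℝ) - dout D X - 1 / (2 * P.length) := by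
  set M := 2 * P.length * k with hMdef
  set W := (P.map (wt M Xs)).sum with hW
  set Z := prec P.length B with hZ
  set Q := P.filter fun a => decide (lv a X) with hQ
  have hle : ∀ a ∈ P, wt M Xs a ≤ W := fun a ha =>
    List.single_le_sum (fun _ _ => Nat.zero_le _) _ (List.mem_map_of_mem ha)
  have hWpos : 0 < W := by
    obtain ⟨a, ha⟩ := List.exists_mem_of_length_pos hP
    exact lt_of_lt_of_le (mwu_wt_pos hM Xs a) (hle a ha)
  have hQP : ∀ a ∈ Q, a ∈ P := fun a ha => (List.mem_filter.1 ha).1
  have hQlen : Q.length ≤ P.length := List.length_filter_le _ _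
  have h1 := mwu_floor Z B W hWpos Q (wt M Xs) fun a ha => hle a (hQP a ha)
  set T := (Q.map fun a => B * min Z (Z * wt M Xs a / W)).sum with hT
  set w := (Q.map (wt M Xs)).sum with hw
  have h2 : (P.length : ℝ) * (Z * dout D X + T) + Z ≤ P.length * Z * k := by exact_mod_cast h
  have hWr : (0 : ℝ) < W := by exact_mod_cast hWpos
  have hN : (0 : ℝ) < P.length := by exact_mod_cast hP
  have hZpos : (0 : ℝ) < Z := by
    have : 0 < Z := by rw [hZ]; unfold prec; omega
    exact_mod_cast this
  have hB : (0 : ℝ) ≤ B := Nat.cast_nonneg B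
  have hZ2 : (Z : ℝ) = 2 * B * (P.length * P.length) + 1 := by
    rw [hZ]; unfold prec; push_cast; ring
  have hQr : (Q.length : ℝ) ≤ P.length := by exact_mod_cast hQlen
  have h3 : (B : ℝ) * (Z * w / W - P.length) ≤ T := by
    refine le_trans (mul_le_mul_of_nonneg_left ?_ hB) h1
    linarith
  -- divide by `N Z`
  have h4 : (P.length : ℝ) * (Z * dout D X + B * (Z * w / W - P.length)) + Z ≤
      P.length * Z * k := by
    refine le_trans ?_ h2
    have := mul_le_mul_of_nonneg_left h3 hN.le
    linarith
  have e1 : (B : ℝ) * (Z * w / W) = Z * (B * w / W) := by field_simp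
  have h5 : (P.length : ℝ) * Z * (B * w / W) ≤
      P.length * Z * (k - dout D X) - Z + B * P.length * P.length := by
    have : (P.length : ℝ) * (Z * dout D X + B * (Z * w / W - P.length)) + Z =
        P.length * Z * dout D X + P.length * Z * (B * w / W) - B * P.length * P.length + Z := by
      rw [mul_sub, e1]; ring
    rw [this] at h4
    linarith
  have h6 : (B : ℝ) * P.length * P.length ≤ Z / 2 := by rw [hZ2]; linarith
  have h7 : (P.length : ℝ) * Z * (B * w / W) ≤
      P.length * Z * (k - dout D X - 1 / (2 * P.length)) := by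
    have e2 : (P.length : ℝ) * Z * (k - dout D X - 1 / (2 * P.length)) =
        P.length * Z * (k - dout D X) - Z / 2 := by
      field_simp
    rw [e2]
    linarith
  exact le_of_mul_le_mul_left h7 (mul_pos hN hZpos)

theorem mwu_upper (D P : List (ℕ × ℕ)) (k B : ℕ) (hP : 0 < P.length) (hk : 0 < k) (hB : 0 < B)
    (Xs : List (Finset ℕ)) (h : Hist D P k B Xs) :
    Real.log ((P.map (wt (2 * P.length * k) Xs)).sum : ℕ) ≤
      Real.log P.length + Xs.length * Real.log (2 * P.length * k : ℕ) +
        ((Xs.map fun X => (k : ℝ) - dout D X).sum - Xs.length / (2 * P.length)) /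
          (B * (2 * P.length * k : ℕ)) := by
  have hM : 0 < 2 * P.length * k := by positivity
  induction Xs with
  | nil =>
    have : (P.map (wt (2 * P.length * k) [])).sum = P.length := by
      have : wt (2 * P.length * k) [] = fun _ => 1 := by
        funext a; simp [wt]
      rw [this]
      simp
    rw [this]
    simp
  | cons X Xs ih =>
    obtain ⟨h1, h2, h3⟩ := h
    have ih' := ih h1
    have hs := mwu_step D P k B X Xs hP hM h3
    rw [mwu_W_cons]
    set M := 2 * P.length * k with hMdef
    set W := (P.map (wt M Xs)).sum with hW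
    set w := ((P.filter fun a => decide (lv a X)).map (wt M Xs)).sum with hw
    have hWpos : 0 < W := by
      obtain ⟨a, ha⟩ := List.exists_mem_of_length_pos hP
      exact lt_of_lt_of_le (mwu_wt_pos hM Xs a)
        (List.single_le_sum (fun _ _ => Nat.zero_le _) _ (List.mem_map_of_mem ha))
    have hWr : (0 : ℝ) < W := by exact_mod_cast hWpos
    have hMr : (0 : ℝ) < M := by exact_mod_cast hM
    have hBr : (0 : ℝ) < B := by exact_mod_cast hB
    have hwr : (0 : ℝ) ≤ w := Nat.cast_nonneg w
    have e1 : ((M * W + w : ℕ) : ℝ) = M * W * (1 + w / (M * W)) := by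
      push_cast
      field_simp
    rw [e1, Real.log_mul (by positivity) (by positivity), Real.log_mul hMr.ne' hWr.ne']
    have h4 : Real.log (1 + w / (M * W)) ≤ w / (M * W) := by
      have := Real.log_le_sub_one_of_pos (x := 1 + (w : ℝ) / (M * W)) (by positivity)
      linarith
    have h5 : (w : ℝ) / (M * W) ≤ ((k : ℝ) - dout D X - 1 / (2 * P.length)) / (B * M) := by
      have e2 : (w : ℝ) / (M * W) = (B * w / W) / (B * M) := by field_simp
      rw [e2]
      exact div_le_div_of_nonneg_right hs (by positivity)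
    rw [List.map_cons, List.sum_cons, List.length_cons]
    push_cast
    have e3 : ((k : ℝ) - dout D X + (Xs.map fun X => (k : ℝ) - dout D X).sum -
        (Xs.length + 1) / (2 * P.length)) / (B * M) =
        ((k : ℝ) - dout D X - 1 / (2 * P.length)) / (B * M) +
        ((Xs.map fun X => (k : ℝ) - dout D X).sum - Xs.length / (2 * P.length)) / (B * M) := by
      rw [← add_div]
      congr 1
      ring
    rw [e3]
    linarith

theorem mwu_log_wt {M : ℕ} (hM : 0 < M) (Xs : List (Finset ℕ)) (a : ℕ × ℕ) :
    Real.log (wt M Xs a : ℕ) = Xs.length * Real.log M +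
      (cv a (Xs : Multiset (Finset ℕ)) : ℕ) * Real.log (1 + 1 / M) := by
  have hMr : (0 : ℝ) < M := by exact_mod_cast hM
  induction Xs with
  | nil => simp [wt, cv]
  | cons X Xs ih =>
    rw [mwu_wt_cons]
    have hpos : (0 : ℝ) < wt M Xs a := by exact_mod_cast mwu_wt_pos hM Xs a
    have hcv : cv a (((X :: Xs : List (Finset ℕ))) : Multiset (Finset ℕ)) =
        (if lv a X then 1 else 0) + cv a (Xs : Multiset (Finset ℕ)) := by
      rw [cv_eq, cv_eq, ← Multiset.cons_coe, Multiset.map_cons, Multiset.sum_cons]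
    rw [hcv, List.length_cons]
    by_cases h : lv a X
    · rw [if_pos h, if_pos h]
      have e : (((M + 1) * wt M Xs a : ℕ) : ℝ) = M * (1 + 1 / M) * wt M Xs a := by
        push_cast
        field_simp
      rw [e, Real.log_mul (by positivity) (by positivity), Real.log_mul (by positivity)
        (by positivity), ih]
      push_cast
      ring
    · rw [if_neg h, if_neg h]
      push_cast
      rw [Real.log_mul (by positivity) (by positivity), ih]
      ring

theorem mwu_lower (D P : List (ℕ × ℕ)) (k B : ℕ) (hP : 0 < P.length) (hk : 0 < k)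
    (Xs : List (Finset ℕ)) (h : Hist D P k B Xs) (hO : Opt D P k B) :
    (Xs.map fun X => (k : ℝ) - dout D X).sum * Real.log (1 + 1 / (2 * P.length * k : ℕ)) ≤
      B * (Real.log ((P.map (wt (2 * P.length * k) Xs)).sum : ℕ) -
        Xs.length * Real.log (2 * P.length * k : ℕ)) := by
  have hM : 0 < 2 * P.length * k := by positivity
  set M := 2 * P.length * k with hMdef
  have hMr : (0 : ℝ) < M := by exact_mod_cast hM
  set W := (P.map (wt M Xs)).sum with hW
  obtain ⟨F, hF, hlen, hcov⟩ := hO
  have hℓ : 0 ≤ Real.log (1 + 1 / (M : ℝ)) := Real.log_nonneg (by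
    have : (0 : ℝ) ≤ 1 / M := by positivity
    linarith)
  have hlogle : ∀ a ∈ P, Real.log (wt M Xs a : ℕ) ≤ Real.log W := by
    intro a ha
    apply Real.log_le_log
    · exact_mod_cast mwu_wt_pos hM Xs a
    · exact_mod_cast List.single_le_sum (fun _ _ => Nat.zero_le _) _ (List.mem_map_of_mem ha)
  -- the sum over `F`
  have h1 : ∀ (G : List (ℕ × ℕ)), (∀ a ∈ G, a ∈ P) →
      ((G.map fun a => cv a (Xs : Multiset (Finset ℕ))).sum : ℕ) * Real.log (1 + 1 / (M : ℝ)) ≤
        G.length * (Real.log W - Xs.length * Real.log M) := by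
    intro G
    induction G with
    | nil => intro _; simp
    | cons a G ih =>
      intro hG
      have ih' := ih fun b hb => hG b (List.mem_cons_of_mem _ hb)
      have h2 := hlogle a (hG a List.mem_cons_self)
      rw [mwu_log_wt hM] at h2
      rw [List.map_cons, List.sum_cons, List.length_cons]
      push_cast at ih' ⊢
      linarith
  have h2 := h1 F hF
  rw [← sum_dout] at h2
  -- all members of the history are left by a pair
  have hin : ∀ X ∈ Xs, ∃ a ∈ P, lv a X := by
    intro X hX
    clear_value M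
    clear hW hlogle h1 h2 W
    induction Xs with
    | nil => simp at hX
    | cons Y Xs ih =>
      obtain ⟨h3, h4, _⟩ := h
      rcases List.mem_cons.1 hX with rfl | hX'
      · exact h4
      · exact ih h3 hX'
  have h3 : (Xs.map fun X => (k : ℝ) - dout D X).sum ≤
      ((((Xs : Multiset (Finset ℕ)).map fun X => dout F X).sum : ℕ) : ℝ) := by
    rw [Multiset.map_coe, Multiset.sum_coe]
    clear_value M
    clear h hW hlogle h1 h2 W
    induction Xs with
    | nil => simp
    | cons X Xs ih =>
      have ih' := ih fun Y hY => hin Y (List.mem_cons_of_mem _ hY)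
      rw [List.map_cons, List.sum_cons, List.map_cons, List.sum_cons]
      obtain ⟨a, ha, hl⟩ := hin X List.mem_cons_self
      have h4 := hcov a ha X hl
      rw [dout_append] at h4
      have h5 : (k : ℝ) ≤ dout D X + dout F X := by exact_mod_cast h4
      push_cast at ih' ⊢
      linarith
  have h4 : 0 ≤ Real.log W - Xs.length * Real.log M := by
    obtain ⟨a, ha⟩ := List.exists_mem_of_length_pos hP
    have h5 := hlogle a ha
    rw [mwu_log_wt hM] at h5
    have h6 : 0 ≤ ((cv a (Xs : Multiset (Finset ℕ)) : ℕ) : ℝ) * Real.log (1 + 1 / (M : ℝ)) :=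
      mul_nonneg (Nat.cast_nonneg _) hℓ
    linarith
  calc (Xs.map fun X => (k : ℝ) - dout D X).sum * Real.log (1 + 1 / (M : ℝ))
      ≤ ((((Xs : Multiset (Finset ℕ)).map fun X => dout F X).sum : ℕ) : ℝ) *
        Real.log (1 + 1 / (M : ℝ)) := mul_le_mul_of_nonneg_right h3 hℓ
    _ ≤ F.length * (Real.log W - Xs.length * Real.log M) := h2
    _ ≤ B * (Real.log W - Xs.length * Real.log M) := by
        apply mul_le_mul_of_nonneg_right _ h4
        exact_mod_cast hlen

theorem mwu_log {x : ℝ} (hx : 0 ≤ x) : x - x ^ 2 / 2 ≤ Real.log (1 + x) := by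
  refine le_trans ?_ (Real.le_log_one_add_of_nonneg hx)
  rw [le_div_iff₀ (by linarith)]
  nlinarith [pow_nonneg hx 3]

theorem mwu_Sp (D P : List (ℕ × ℕ)) (k B : ℕ) (hP : 0 < P.length) (hk : 0 < k)
    (Xs : List (Finset ℕ)) (h : Hist D P k B Xs) :
    0 ≤ (Xs.map fun X => (k : ℝ) - dout D X).sum ∧
      (Xs.map fun X => (k : ℝ) - dout D X).sum ≤ Xs.length * k := by
  induction Xs with
  | nil => simp
  | cons X Xs ih =>
    obtain ⟨h1, h2, h3⟩ := h
    obtain ⟨i1, i2⟩ := ih h1
    have hs := mwu_step D P k B X Xs hP (by positivity) h3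
    have hN : (0 : ℝ) < P.length := by exact_mod_cast hP
    have h4 : (0 : ℝ) ≤ (B : ℝ) *
        (((P.filter fun a => decide (lv a X)).map (wt (2 * P.length * k) Xs)).sum : ℕ) /
        ((P.map (wt (2 * P.length * k) Xs)).sum : ℕ) := by positivity
    have h5 : (0 : ℝ) < 1 / (2 * P.length) := by positivity
    have h6 : (0 : ℝ) ≤ dout D X := Nat.cast_nonneg _
    rw [List.map_cons, List.sum_cons, List.length_cons]
    push_cast
    constructor
    · linarith
    · linarith

theorem hist_bound (D P : List (ℕ × ℕ)) (k B : ℕ) (Xs : List (Finset ℕ))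
    (h : Hist D P k B Xs) (hB : Opt D P k B) :
    Xs.length ≤ 8 * (P.length * P.length * P.length) * k * B := by
  rcases Xs with _ | ⟨X, Xs⟩
  · simp
  obtain ⟨_, ⟨a, ha, hl⟩, h3⟩ := id h
  have hP : 0 < P.length := List.length_pos_of_mem ha
  have hZ : 0 < prec P.length B := by unfold prec; omega
  have hk : 0 < k := by
    rcases Nat.eq_zero_or_pos k with rfl | hk
    · rw [mul_zero] at h3; omega
    · exact hk
  have hBpos : 0 < B := by
    rcases Nat.eq_zero_or_pos B with rfl | hB'
    · exfalso
      obtain ⟨F, _, hlen, hcov⟩ := hB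
      have hF : F = [] := List.eq_nil_of_length_eq_zero (by omega)
      rw [hF, List.append_nil] at hcov
      have h4 := hcov a ha X hl
      have h5 : P.length * prec P.length 0 * k ≤ P.length * prec P.length 0 * dout D X :=
        Nat.mul_le_mul_left _ h4
      have h6 : P.length * (prec P.length 0 * dout D X) ≤ P.length * (prec P.length 0 * dout D X +
        ((P.filter fun a => decide (lv a X)).map fun a => 0 * min (prec P.length 0)
          (prec P.length 0 * wt (2 * P.length * k) Xs a /
            (P.map (wt (2 * P.length * k) Xs)).sum)).sum) :=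
        Nat.mul_le_mul_left _ (Nat.le_add_right _ _)
      rw [← mul_assoc] at h6
      omega
    · exact hB'
  clear h3
  set Ys := X :: Xs with hYs
  have hM : 0 < 2 * P.length * k := by positivity
  have u1 := mwu_upper D P k B hP hk hBpos Ys h
  have u2 := mwu_lower D P k B hP hk Ys h hB
  obtain ⟨u3, u4⟩ := mwu_Sp D P k B hP hk Ys h
  set Sp := (Ys.map fun X => (k : ℝ) - dout D X).sum with hSp
  have hMe : ((2 * P.length * k : ℕ) : ℝ) = 2 * P.length * k := by push_cast; ring
  set M : ℝ := ((2 * P.length * k : ℕ) : ℝ) with hMdef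
  have hMr : 0 < M := by rw [hMdef]; exact_mod_cast hM
  have hN : (0 : ℝ) < P.length := by exact_mod_cast hP
  have hkr : (0 : ℝ) < k := by exact_mod_cast hk
  have hBr : (0 : ℝ) < B := by exact_mod_cast hBpos
  set N : ℝ := (P.length : ℝ) with hNdef
  set R : ℝ := (Ys.length : ℝ) with hRdef
  set LW := Real.log ((P.map (wt (2 * P.length * k) Ys)).sum : ℕ) with hLW
  have hR0 : 0 ≤ R := Nat.cast_nonneg _
  have u5 := mwu_log (x := 1 / M) (by positivity)
  have u6 : Real.log N ≤ N := by
    have := Real.log_le_sub_one_of_pos hN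
    linarith
  have u7 : Sp * (1 / M - (1 / M) ^ 2 / 2) ≤ B * (LW - R * Real.log M) :=
    (mul_le_mul_of_nonneg_left u5 u3).trans u2
  have u8 : (B : ℝ) * (LW - R * Real.log M) ≤ B * N + (Sp - R / (2 * N)) / M := by
    have e1 : (B : ℝ) * ((Sp - R / (2 * N)) / (B * M)) = (Sp - R / (2 * N)) / M := by
      field_simp
    rw [← e1, ← mul_add]
    apply mul_le_mul_of_nonneg_left _ hBr.le
    linarith
  have u9 := u7.trans u8
  -- `R / (2 N M) ≤ B N + Sp / (2 M ^ 2)`
  have v1 : R / (2 * N * M) ≤ B * N + Sp / (2 * M ^ 2) := by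
    have e2 : Sp * (1 / M - (1 / M) ^ 2 / 2) = Sp / M - Sp / (2 * M ^ 2) := by
      field_simp
    have e3 : (Sp - R / (2 * N)) / M = Sp / M - R / (2 * N * M) := by
      field_simp
    rw [e2, e3] at u9
    linarith
  have v2 : Sp / (2 * M ^ 2) ≤ R / (4 * N * M) := by
    have e4 : R / (4 * N * M) = (R * k) / (2 * M ^ 2) := by
      rw [hMe]
      field_simp
      ring
    rw [e4]
    exact div_le_div_of_nonneg_right u4 (by positivity)
  have v3 : R / (4 * N * M) ≤ B * N := by
    have e5 : R / (2 * N * M) = R / (4 * N * M) + R / (4 * N * M) := by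
      field_simp
      ring
    rw [e5] at v1
    linarith
  have v4 : R ≤ 8 * (N * N * N) * k * B := by
    rw [div_le_iff₀ (by positivity)] at v3
    rw [hMe] at v3
    linarith
  have v5 : ((Ys.length : ℕ) : ℝ) ≤ ((8 * (P.length * P.length * P.length) * k * B : ℕ) : ℝ) := by
    push_cast
    exact v4
  exact_mod_cast v5

end Pool.Agent.H685R2.STA
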