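import Pool.Agent.H685R2.STA.Cut
import Pool.Agent.H685R2.STA.Acc
import Pool.Agent.H685R2.STA.Mwu

/-! # The test `OPT ≤ B` is correct -/

namespace Pool.Agent.H685R2.STA

theorem zip_map_self {β : Type} (f : ℕ × ℕ → β) : ∀ P : List (ℕ × ℕ),
    P.zip (P.map f) = P.map fun a => (a, f a)
  | [] => rfl
  | a :: P => by simp [zip_map_self f P]

theorem upd_map_wt (P : List (ℕ × ℕ)) (M : ℕ) (Xs : List (Finset ℕ)) (X : List ℕ) :
    upd P M (P.map (wt M Xs)) X = P.map (wt M (X.toFinset :: Xs)) := by
  unfold upd
  rw [zip_map_self, List.map_map]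
  apply List.map_congr_left
  intro a _
  simp only [Function.comp, wt, List.map_cons, List.prod_cons, lv, List.mem_toFinset]
  rw [mul_comm]

theorem dout_replicate_flatten (D : List (ℕ × ℕ)) (Y : Finset ℕ) (Z : ℕ) :
    dout (List.replicate Z D).flatten Y = Z * dout D Y := by
  unfold dout
  induction Z with
  | zero => simp
  | succ n ih => rw [List.replicate_succ, List.flatten_cons, List.countP_append, ih]; ring

theorem dout_flatMap (P : List (ℕ × ℕ)) (g : ℕ × ℕ → ℕ) (Y : Finset ℕ) :
    dout (P.flatMap fun a => List.replicate (g a) a) Y =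
      ((P.filter fun a => decide (lv a Y)).map g).sum := by
  unfold dout
  induction P with
  | nil => simp
  | cons a P ih =>
    rw [List.flatMap_cons, List.countP_append, ih, List.filter_cons]
    by_cases h : lv a Y
    · simp [h, List.countP_replicate]
    · simp [h, List.countP_replicate]

/-- the capacities of the pairs -/
def capE (P : List (ℕ × ℕ)) (B : ℕ) (w : List ℕ) : List (ℕ × ℕ) :=
  (P.zip w).flatMap fun e =>
    List.replicate (B * min (prec P.length B) (prec P.length B * e.2 / w.sum)) e.1

theorem capn_eq (D P : List (ℕ × ℕ)) (B : ℕ) (w : List ℕ) :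
    capn D P B w = (List.replicate (prec P.length B) D).flatten ++ capE P B w := rfl

theorem capE_map (P : List (ℕ × ℕ)) (B : ℕ) (f : ℕ × ℕ → ℕ) :
    capE P B (P.map f) = P.flatMap fun a => List.replicate
      (B * min (prec P.length B) (prec P.length B * f a / (P.map f).sum)) a := by
  unfold capE
  rw [zip_map_self, List.flatMap_map]

theorem dout_capn (D P : List (ℕ × ℕ)) (B : ℕ) (w : List ℕ) (Y : Finset ℕ) :
    dout (capn D P B w) Y = prec P.length B * dout D Y + dout (capE P B w) Y := by
  rw [capn_eq, dout_append, dout_replicate_flatten]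

theorem sum_div_le (Z W : ℕ) : ∀ l : List ℕ,
    (l.map fun x => Z * x / W).sum ≤ Z * l.sum / W
  | [] => by simp
  | x :: l => by
    have h := sum_div_le Z W l
    simp only [List.map_cons, List.sum_cons, mul_add]
    refine le_trans (Nat.add_le_add_left h _) ?_
    exact Nat.div_add_div_le_add_div

theorem capE_length (P : List (ℕ × ℕ)) (B : ℕ) (f : ℕ × ℕ → ℕ) :
    (capE P B (P.map f)).length ≤ B * prec P.length B := by
  rw [capE_map]
  generalize prec P.length B = Z
  generalize hW : (P.map f).sum = W
  have h1 : (P.flatMap fun a => List.replicate (B * min Z (Z * f a / W)) a).length =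
      B * ((P.map fun a => min Z (Z * f a / W)).sum) := by
    clear hW
    induction P with
    | nil => simp
    | cons a P ih => simp [ih, mul_add]
  rw [h1]
  apply Nat.mul_le_mul_left
  have h2 : (P.map fun a => min Z (Z * f a / W)).sum ≤ ((P.map f).map fun x => Z * x / W).sum := by
    rw [List.map_map]
    apply List.sum_le_sum
    intro a _
    exact min_le_right _ _
  refine h2.trans ((sum_div_le Z W (P.map f)).trans ?_)
  rw [hW]
  rcases Nat.eq_zero_or_pos W with h0 | h0
  · simp [h0]
  · rw [Nat.mul_div_cancel _ h0]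

theorem capE_mem (P : List (ℕ × ℕ)) (B : ℕ) (w : List ℕ) (a : ℕ × ℕ) (ha : a ∈ capE P B w) :
    a ∈ P := by
  unfold capE at ha
  rw [List.mem_flatMap] at ha
  obtain ⟨e, he, ha⟩ := ha
  rw [List.eq_of_mem_replicate ha]
  exact (List.of_mem_zip he).1

theorem viol_none (D : List (ℕ × ℕ)) (S T : List ℕ) (K : List Unit) (B : ℕ)
    (Xs : List (Finset ℕ)) (M : ℕ)
    (h : viol D (pairs S T) K B ((pairs S T).map (wt M Xs)) = none) :
    Opt D (pairs S T) K.length B := by
  refine accept_sound S T D (capE (pairs S T) B ((pairs S T).map (wt M Xs))) K.length B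
    (prec (pairs S T).length B) (fun a ha => capE_mem _ _ _ _ ha) (capE_length _ _ _) ?_
  intro a ha X hX
  unfold viol at h
  rw [List.head?_eq_none_iff, List.filter_eq_nil_iff] at h
  have h1 := h (cutL (capn D (pairs S T) B ((pairs S T).map (wt M Xs))) a.1 a.2)
    (List.mem_map.2 ⟨a, ha, rfl⟩)
  have hne : a.1 ≠ a.2 := fun e => hX.2 (e ▸ hX.1)
  have h2 := (cutL_spec (capn D (pairs S T) B ((pairs S T).map (wt M Xs))) a.1 a.2 hne).2.2 X
    hX.1 hX.2
  simp only [bad, decide_eq_true_eq, not_le] at h1
  rw [← dout_capn]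
  refine lt_of_lt_of_le h1 ?_
  gcongr

theorem viol_some (D : List (ℕ × ℕ)) (S T : List ℕ) (K : List Unit) (B : ℕ)
    (Xs : List (Finset ℕ)) (X : List ℕ)
    (hXs : Hist D (pairs S T) K.length B Xs)
    (h : viol D (pairs S T) K B ((pairs S T).map (wt (2 * (pairs S T).length * K.length) Xs)) =
      some X) :
    Hist D (pairs S T) K.length B (X.toFinset :: Xs) := by
  unfold viol at h
  have h1 := List.mem_of_head? h
  rw [List.mem_filter, List.mem_map] at h1
  obtain ⟨⟨a, ha, rfl⟩, h2⟩ := h1
  have hne : a.1 ≠ a.2 := by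
    have := (List.mem_filter.1 ha).2
    simpa using this
  obtain ⟨h3, h4, _⟩ := cutL_spec (capn D (pairs S T) B
    ((pairs S T).map (wt (2 * (pairs S T).length * K.length) Xs))) a.1 a.2 hne
  refine ⟨hXs, ⟨a, ha, ?_, ?_⟩, ?_⟩
  · simpa using h3
  · simpa using h4
  · simp only [bad, decide_eq_true_eq] at h2
    rw [leave_length, dout_capn, capE_map, dout_flatMap] at h2
    exact h2

theorem step_none (D P : List (ℕ × ℕ)) (K : List Unit) (B r : ℕ) :
    (step D P K B)^[r] none = none := by
  induction r with
  | zero => rfl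
  | succ r ih => rw [Function.iterate_succ_apply]; exact ih

theorem iter_cases (D : List (ℕ × ℕ)) (S T : List ℕ) (K : List Unit) (B r : ℕ) :
    ((step D (pairs S T) K B)^[r] (some ((pairs S T).map fun _ => 1)) = none ∧
      Opt D (pairs S T) K.length B) ∨
    ∃ Xs, Hist D (pairs S T) K.length B Xs ∧ Xs.length = r ∧
      (step D (pairs S T) K B)^[r] (some ((pairs S T).map fun _ => 1)) =
        some ((pairs S T).map (wt (2 * (pairs S T).length * K.length) Xs)) := by
  induction r with
  | zero =>
    right
    refine ⟨[], trivial, rfl, ?_⟩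
    rfl
  | succ r ih =>
    rw [Function.iterate_succ_apply']
    rcases ih with ⟨h1, h2⟩ | ⟨Xs, h1, h2, h3⟩
    · left
      rw [h1]
      exact ⟨rfl, h2⟩
    · rw [h3]
      unfold step
      simp only [Option.elim]
      cases hv : viol D (pairs S T) K B
        ((pairs S T).map (wt (2 * (pairs S T).length * K.length) Xs)) with
      | none =>
        left
        exact ⟨rfl, viol_none D S T K B Xs _ hv⟩
      | some X =>
        right
        refine ⟨X.toFinset :: Xs, viol_some D S T K B Xs X h1 hv, by simp [h2], ?_⟩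
        simp only [upd_map_wt]

theorem dec0_iff (D : List (ℕ × ℕ)) (S T : List ℕ) (K : List Unit) (B : ℕ) :
    dec0 D (pairs S T) K B = true ↔ Opt D (pairs S T) K.length B := by
  unfold dec0
  rw [Option.isNone_iff_eq_none]
  rcases iter_cases D S T K B (rounds (pairs S T).length K.length B) with
    ⟨h1, h2⟩ | ⟨Xs, h1, h2, h3⟩
  · exact ⟨fun _ => h2, fun _ => h1⟩
  · constructor
    · intro h
      rw [h3] at h
      exact absurd h (by simp)
    · intro h
      have h4 := hist_bound D (pairs S T) K.length B Xs h1 h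
      rw [h2] at h4
      unfold rounds at h4
      omega

theorem Opt.mono {D P : List (ℕ × ℕ)} {k m m' : ℕ} (h : Opt D P k m) (hm : m ≤ m') :
    Opt D P k m' := by
  obtain ⟨F, h1, h2, h3⟩ := h
  exact ⟨F, h1, h2.trans hm, h3⟩

theorem opt_max (D P : List (ℕ × ℕ)) (k : ℕ) : Opt D P k (P.length * k) := by
  refine ⟨P.flatMap fun a => List.replicate k a, ?_, ?_, ?_⟩
  · intro a ha
    rw [List.mem_flatMap] at ha
    obtain ⟨b, hb, hab⟩ := ha
    rwa [List.eq_of_mem_replicate hab]
  · simp [List.length_flatMap]
  · intro a ha X hX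
    rw [dout_append, dout_flatMap P (fun _ => k)]
    have h1 : a ∈ P.filter fun a => decide (lv a X) := by
      rw [List.mem_filter]
      exact ⟨ha, by simpa using hX⟩
    have h2 : k ∈ (P.filter fun a => decide (lv a X)).map fun _ => k :=
      List.mem_map.2 ⟨a, h1, rfl⟩
    have h3 := List.le_sum_of_mem h2
    omega

theorem dec_iff (D : List (ℕ × ℕ)) (S T : List ℕ) (K : List Unit) (B : ℕ) :
    dec D (pairs S T) K B = true ↔ Opt D (pairs S T) K.length B := by
  unfold dec
  rw [dec0_iff]
  constructor
  · intro h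
    exact h.mono (min_le_left _ _)
  · intro h
    rcases le_total B ((pairs S T).length * K.length) with h1 | h1
    · rwa [min_eq_left h1]
    · rw [min_eq_right h1]
      exact opt_max _ _ _

end Pool.Agent.H685R2.STA
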