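import Mathlib

/-!
# `S`-`T` edge-connectivity augmentation: definitions

A digraph is given by the list `D` of its arcs (parallel arcs are allowed); its vertices are
natural numbers.
-/

namespace Pool.Agent.H685R2.STA

/-- `IsWalk D u w v`: the arcs of `D` with the indices listed in `w` form a directed walk from
`u` to `v`. -/
def IsWalk (D : List (ℕ × ℕ)) : ℕ → List ℕ → ℕ → Prop
  | u, [], v => u = v
  | u, i :: w, v => ∃ y, D[i]? = some (u, y) ∧ IsWalk D y w v

/-- The vertices visited by the walk that starts in `u` and uses the arcs with indices `w`. -/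
def verts (D : List (ℕ × ℕ)) (u : ℕ) (w : List ℕ) : List ℕ :=
  u :: w.map fun i => (D.getD i (0, 0)).2

/-- `IsPath D u w v`: the arcs with indices `w` form a directed path from `u` to `v`
(no vertex is repeated). -/
def IsPath (D : List (ℕ × ℕ)) (u : ℕ) (w : List ℕ) (v : ℕ) : Prop :=
  IsWalk D u w v ∧ (verts D u w).Nodup

/-- `D` is `k`-edge-connected from `S` to `T`: for all `s ∈ S` and `t ∈ T` with `s ≠ t` there are
`k` pairwise arc-disjoint directed paths from `s` to `t`. -/
def KConn (D : List (ℕ × ℕ)) (S T : List ℕ) (k : ℕ) : Prop :=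
  ∀ s ∈ S, ∀ t ∈ T, s ≠ t → ∃ W : Fin k → List ℕ,
    (∀ i, IsPath D s (W i) t) ∧ ∀ i j, i ≠ j → List.Disjoint (W i) (W j)

/-- The list `F` of new arcs (all of them from `S` to `T`) makes `D` `k`-edge-connected from
`S` to `T`. -/
def IsAug (D : List (ℕ × ℕ)) (S T : List ℕ) (k : ℕ) (F : List (ℕ × ℕ)) : Prop :=
  (∀ a ∈ F, a.1 ∈ S ∧ a.2 ∈ T) ∧ KConn (D ++ F) S T k

/-- `F` is an augmenting list of new arcs of minimum cardinality. -/
def IsOpt (D : List (ℕ × ℕ)) (S T : List ℕ) (k : ℕ) (F : List (ℕ × ℕ)) : Prop :=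
  IsAug D S T k F ∧ ∀ F', IsAug D S T k F' → F.length ≤ F'.length

/-- The multiset of arcs given by a vector: the entry `(a, n)` stands for `n` copies of the
arc `a`. -/
def expand (x : List ((ℕ × ℕ) × ℕ)) : List (ℕ × ℕ) :=
  x.flatMap fun e => List.replicate e.2 e.1

/-! ### Auxiliary notions -/

/-- the arc `a` leaves the set `X` -/
def lv (a : ℕ × ℕ) (X : Finset ℕ) : Prop := a.1 ∈ X ∧ a.2 ∉ X

instance (a : ℕ × ℕ) (X : Finset ℕ) : Decidable (lv a X) := by unfold lv; infer_instance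

/-- the number of arcs of `D` leaving `X` -/
def dout (D : List (ℕ × ℕ)) (X : Finset ℕ) : ℕ := D.countP fun a => decide (lv a X)

/-- every set left by a pair in `P` is left by at least `k` arcs of `D` -/
def Cov (D P : List (ℕ × ℕ)) (k : ℕ) : Prop := ∀ a ∈ P, ∀ X : Finset ℕ, lv a X → k ≤ dout D X

/-- the pairs `(s, t)` with `s ∈ S`, `t ∈ T`, `s ≠ t` -/
def pairs (S T : List ℕ) : List (ℕ × ℕ) :=
  (S.flatMap fun s => T.map fun t => (s, t)).filter fun a => !decide (a.1 = a.2)

/-- the number of members of the family `I` that `a` leaves -/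
def cv (a : ℕ × ℕ) (I : Multiset (Finset ℕ)) : ℕ := I.countP fun X => lv a X

/-- every member of the family is left by a pair of `P` -/
def InC (P : List (ℕ × ℕ)) (I : Multiset (Finset ℕ)) : Prop := ∀ X ∈ I, ∃ a ∈ P, lv a X

/-- independent families: every pair of `P` leaves at most one member -/
def Indep (P : List (ℕ × ℕ)) (I : Multiset (Finset ℕ)) : Prop :=
  InC P I ∧ ∀ a ∈ P, cv a I ≤ 1

/-- no two members are crossing: members left by a common pair are nested -/
def Unx (P : List (ℕ × ℕ)) (I : Multiset (Finset ℕ)) : Prop :=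
  ∀ X ∈ I, ∀ Y ∈ I, (∃ a ∈ P, lv a X ∧ lv a Y) → X ⊆ Y ∨ Y ⊆ X

/-- total demand of a family -/
def dem (D : List (ℕ × ℕ)) (k : ℕ) (I : Multiset (Finset ℕ)) : ℤ :=
  (I.map fun X => (k : ℤ) - (dout D X : ℤ)).sum

/-- `OPT ≤ m`: there is a list of at most `m` pairs of `P` that covers all demands -/
def Opt (D P : List (ℕ × ℕ)) (k m : ℕ) : Prop :=
  ∃ F : List (ℕ × ℕ), (∀ a ∈ F, a ∈ P) ∧ F.length ≤ m ∧ Cov (D ++ F) P k

end Pool.Agent.H685R2.STA
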