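import Pool.Agent.H685R2.STA.Unx
import Pool.Agent.H685R2.STA.Col

namespace Pool.Agent.H685R2.STA

private theorem FJ_dout_append (D E : List (ℕ × ℕ)) (X : Finset ℕ) :
    dout (D ++ E) X = dout D X + dout E X := List.countP_append

private theorem FJ_cv_add (a : ℕ × ℕ) (I J : Multiset (Finset ℕ)) :
    cv a (I + J) = cv a I + cv a J := Multiset.countP_add _ _ _

private theorem FJ_dem_add (D : List (ℕ × ℕ)) (k : ℕ) (I J : Multiset (Finset ℕ)) :
    dem D k (I + J) = dem D k I + dem D k J := by
  unfold dem
  rw [Multiset.map_add, Multiset.sum_add]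

private def FJ_demHom (D : List (ℕ × ℕ)) (k : ℕ) : Multiset (Finset ℕ) →+ ℤ where
  toFun := dem D k
  map_zero' := by simp [dem]
  map_add' := FJ_dem_add D k

private def FJ_cvHom (a : ℕ × ℕ) : Multiset (Finset ℕ) →+ ℕ where
  toFun := cv a
  map_zero' := by simp [cv]
  map_add' := FJ_cv_add a

private theorem FJ_dem_snoc (D : List (ℕ × ℕ)) (k : ℕ) (a : ℕ × ℕ) (I : Multiset (Finset ℕ)) :
    dem (D ++ [a]) k I = dem D k I - (cv a I : ℤ) := by
  induction I using Multiset.induction with
  | empty => simp [dem, cv]
  | cons X I ih =>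
    have h1 : dem (D ++ [a]) k (X ::ₘ I) =
        ((k : ℤ) - (dout (D ++ [a]) X : ℤ)) + dem (D ++ [a]) k I := by
      unfold dem; rw [Multiset.map_cons, Multiset.sum_cons]
    have h2 : dem D k (X ::ₘ I) = ((k : ℤ) - (dout D X : ℤ)) + dem D k I := by
      unfold dem; rw [Multiset.map_cons, Multiset.sum_cons]
    have h3 : dout (D ++ [a]) X = dout D X + if lv a X then 1 else 0 := by
      rw [FJ_dout_append]
      congr 1
      unfold dout
      by_cases h : lv a X <;> simp [h]
    have h4 : cv a (X ::ₘ I) = cv a I + if lv a X then 1 else 0 := by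
      unfold cv
      by_cases h : lv a X <;> simp [h]
    rw [h1, h2, h3, h4, ih]
    push_cast
    ring

private theorem FJ_submod (D : List (ℕ × ℕ)) (X Y : Finset ℕ) :
    dout D (X ∩ Y) + dout D (X ∪ Y) ≤ dout D X + dout D Y := by
  induction D with
  | nil => simp [dout]
  | cons a D ih =>
    have h1 : ∀ Z : Finset ℕ, dout (a :: D) Z = dout D Z + if lv a Z then 1 else 0 := by
      intro Z
      unfold dout
      by_cases h : lv a Z <;> simp [h]
    rw [h1, h1, h1, h1]
    have h2 : (if lv a (X ∩ Y) then 1 else 0) + (if lv a (X ∪ Y) then 1 else 0) ≤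
        (if lv a X then 1 else 0) + (if lv a Y then 1 else 0) := by
      unfold lv
      simp only [Finset.mem_inter, Finset.mem_union]
      by_cases p1 : a.1 ∈ X <;> by_cases p2 : a.1 ∈ Y <;> by_cases p3 : a.2 ∈ X <;>
        by_cases p4 : a.2 ∈ Y <;> simp [p1, p2, p3, p4]
    omega

private theorem FJ_mem_sum (I : ℕ × ℕ → Multiset (Finset ℕ)) (Q : List (ℕ × ℕ)) (X : Finset ℕ)
    (h : X ∈ (Q.map I).sum) : ∃ a ∈ Q, X ∈ I a := by
  induction Q with
  | nil => simp at h
  | cons a Q ih =>
    rw [List.map_cons, List.sum_cons, Multiset.mem_add] at h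
    rcases h with h | h
    · exact ⟨a, List.mem_cons_self, h⟩
    · obtain ⟨b, hb, h⟩ := ih h
      exact ⟨b, List.mem_cons_of_mem _ hb, h⟩

theorem frank_jordan (S T : List ℕ) (D : List (ℕ × ℕ)) (k m : ℕ)
    (h : ∀ I, Indep (pairs S T) I → dem D k I ≤ m) : Opt D (pairs S T) k m := by
  induction m generalizing D with
  | zero =>
    refine ⟨[], by simp, le_rfl, ?_⟩
    intro a ha X hX
    rw [List.append_nil]
    have h1 := h {X} ⟨by
      intro Y hY
      rw [Multiset.mem_singleton] at hY
      subst hY
      exact ⟨a, ha, hX⟩, by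
      intro b _
      unfold cv
      exact (Multiset.countP_le_card _ _).trans (by simp)⟩
    unfold dem at h1
    rw [Multiset.map_singleton, Multiset.sum_singleton] at h1
    push_cast at h1
    omega
  | succ m ih =>
    by_cases hP : pairs S T = []
    · refine ⟨[], by simp, by simp, ?_⟩
      intro a ha
      rw [hP] at ha
      simp at ha
    · suffices hcl : ∃ a ∈ pairs S T, ∀ I, Indep (pairs S T) I → dem (D ++ [a]) k I ≤ m by
        obtain ⟨a, ha, hI⟩ := hcl
        obtain ⟨F, hF1, hF2, hF3⟩ := ih (D ++ [a]) hI
        refine ⟨a :: F, ?_, by simp [hF2], ?_⟩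
        · intro b hb
          rcases List.mem_cons.mp hb with rfl | hb
          · exact ha
          · exact hF1 b hb
        · have : D ++ a :: F = D ++ [a] ++ F := by simp
          rw [this]
          exact hF3
      by_contra hcon
      push Not at hcon
      have hch : ∀ a : ℕ × ℕ, ∃ I : Multiset (Finset ℕ), a ∈ pairs S T →
          Indep (pairs S T) I ∧ (m : ℤ) < dem (D ++ [a]) k I := by
        intro a
        by_cases ha : a ∈ pairs S T
        · obtain ⟨I, h1, h2⟩ := hcon a ha
          exact ⟨I, fun _ => ⟨h1, h2⟩⟩
        · exact ⟨0, fun h => absurd h ha⟩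
      choose I hI using hch
      have hI2 : ∀ a ∈ pairs S T, cv a (I a) = 0 ∧ ((m : ℤ) + 1) ≤ dem D k (I a) := by
        intro a ha
        obtain ⟨h1, h2⟩ := hI a ha
        have h3 := h (I a) h1
        rw [FJ_dem_snoc] at h2
        push_cast at h3
        constructor
        · omega
        · omega
      set M : Multiset (Finset ℕ) := ((pairs S T).map I).sum with hM
      have hMin : InC (pairs S T) M := by
        intro X hX
        obtain ⟨a, ha, hX⟩ := FJ_mem_sum I _ X hX
        exact (hI a ha).1.1 X hX
      set N := (pairs S T).length with hN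
      have hNpos : 0 < N := List.length_pos_iff.mpr hP
      have hdem : (N : ℤ) * ((m : ℤ) + 1) ≤ dem D k M := by
        have h1 : dem D k M = ((pairs S T).map (fun a => dem D k (I a))).sum := by
          have := map_list_sum (FJ_demHom D k) ((pairs S T).map I)
          rw [List.map_map] at this
          exact this
        rw [h1]
        have h2 : ∀ Q : List (ℕ × ℕ), (∀ a ∈ Q, a ∈ pairs S T) →
            (Q.length : ℤ) * ((m : ℤ) + 1) ≤ (Q.map (fun a => dem D k (I a))).sum := by
          intro Q
          induction Q with
          | nil => intro _; simp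
          | cons b Q ihQ =>
            intro hQ
            have h3 := ihQ (fun a ha => hQ a (List.mem_cons_of_mem _ ha))
            have h4 := (hI2 b (hQ b List.mem_cons_self)).2
            rw [List.length_cons, List.map_cons, List.sum_cons]
            push_cast
            linarith
        exact h2 _ (fun a ha => ha)
      have hcv : ∀ b ∈ pairs S T, cv b M ≤ N - 1 := by
        intro b hb
        have h1 : cv b M = ((pairs S T).map (fun a => cv b (I a))).sum := by
          have := map_list_sum (FJ_cvHom b) ((pairs S T).map I)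
          rw [List.map_map] at this
          exact this
        have hperm : (pairs S T).Perm (b :: (pairs S T).erase b) := List.perm_cons_erase hb
        have h2 : ((pairs S T).map (fun a => cv b (I a))).sum =
            cv b (I b) + (((pairs S T).erase b).map (fun a => cv b (I a))).sum := by
          rw [(hperm.map (fun a => cv b (I a))).sum_eq, List.map_cons, List.sum_cons]
        have h3 : (((pairs S T).erase b).map (fun a => cv b (I a))).sum ≤
            ((pairs S T).erase b).length := by
          have h4 : ∀ Q : List (ℕ × ℕ), (∀ a ∈ Q, a ∈ pairs S T) →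
              (Q.map (fun a => cv b (I a))).sum ≤ Q.length := by
            intro Q
            induction Q with
            | nil => intro _; simp
            | cons c Q ihQ =>
              intro hQ
              have h5 := ihQ (fun a ha => hQ a (List.mem_cons_of_mem _ ha))
              have h6 := (hI c (hQ c List.mem_cons_self)).1.2 b hb
              rw [List.length_cons, List.map_cons, List.sum_cons]
              omega
          exact h4 _ (fun a ha => List.mem_of_mem_erase ha)
        rw [List.length_erase_of_mem hb] at h3
        rw [h1, h2, (hI2 b hb).1]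
        omega
      obtain ⟨M', hM'1, hM'2, hM'3, hM'4⟩ := uncross (pairs S T)
        (fun X => (k : ℤ) - (dout D X : ℤ)) (by
          intro X Y _
          have := FJ_submod D X Y
          show (k : ℤ) - (dout D X : ℤ) + ((k : ℤ) - (dout D Y : ℤ)) ≤
            (k : ℤ) - (dout D (X ∩ Y) : ℤ) + ((k : ℤ) - (dout D (X ∪ Y) : ℤ))
          omega) M hMin
      obtain ⟨f, hf1, hf2⟩ := colour S T (N - 1) M' hM'1
        (fun a ha => (hM'3 a).trans (hcv a ha)) hM'4
      have h5 : dem D k M' = ∑ i, dem D k (f i) := by
        rw [← hf2]
        exact map_sum (FJ_demHom D k) f Finset.univ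
      have h6 : ∑ i, dem D k (f i) ≤ ((N - 1 : ℕ) : ℤ) * ((m : ℤ) + 1) := by
        calc ∑ i, dem D k (f i) ≤ ∑ _i : Fin (N - 1), ((m : ℤ) + 1) := by
              refine Finset.sum_le_sum fun i _ => ?_
              have := h (f i) (hf1 i)
              push_cast at this
              exact this
          _ = _ := by rw [Finset.sum_const, Finset.card_univ, Fintype.card_fin, nsmul_eq_mul]
      have h7 : dem D k M ≤ dem D k M' := hM'2
      have h8 : ((N - 1 : ℕ) : ℤ) = (N : ℤ) - 1 := by
        push_cast [Nat.cast_sub hNpos]
        simp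
      rw [h8] at h6
      have h9 : (0 : ℤ) ≤ m := by positivity
      nlinarith

end Pool.Agent.H685R2.STA
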