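import Pool.Agent.H685R2.STA.Alg

/-! # Histories of the multiplicative weights method (definitions only) -/

namespace Pool.Agent.H685R2.STA

/-- the weight of the pair `a` after the cuts `Xs` (newest first) have been found -/
def wt (M : ℕ) (Xs : List (Finset ℕ)) (a : ℕ × ℕ) : ℕ :=
  (Xs.map fun X => if lv a X then M + 1 else M).prod

/-- `Xs` is a possible history of violated cuts -/
def Hist (D P : List (ℕ × ℕ)) (k B : ℕ) : List (Finset ℕ) → Prop
  | [] => True
  | X :: Xs => Hist D P k B Xs ∧ (∃ a ∈ P, lv a X) ∧
      P.length * (prec P.length B * dout D X +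
        ((P.filter fun a => decide (lv a X)).map fun a => B * min (prec P.length B)
          (prec P.length B * wt (2 * P.length * k) Xs a /
            (P.map (wt (2 * P.length * k) Xs)).sum)).sum) + prec P.length B ≤
      P.length * prec P.length B * k

/-- a correct search tree -/
def GoodTree (C : List (ℕ × ℕ)) (s : ℕ) : List (ℕ × ℕ) → Prop
  | [] => True
  | a :: Tr => GoodTree C s Tr ∧ a ∈ C ∧ a.1 ∈ reach s Tr ∧ a.2 ∉ reach s Tr

end Pool.Agent.H685R2.STA
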