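import Pool.Agent.H685R2.STA.Defs

/-! Menger's theorem (arc version) for lists of arcs, via Hall's theorem (helper89, after
`H157R2.Menger` and `H654R4.MO.Menger`). -/

namespace Pool.Agent.H685R2.STA

namespace Meng

/-- the heads of the arcs in `w` -/
def heads (D : List (ℕ × ℕ)) (w : List ℕ) : List ℕ := w.map fun i => (D.getD i (0, 0)).2

theorem snoc {D : List (ℕ × ℕ)} : ∀ {w : List ℕ} {u v x i : ℕ}, IsWalk D u w v →
    D[i]? = some (v, x) → IsWalk D u (w ++ [i]) x
  | [], u, v, x, i, h, hi => ⟨x, by rw [show u = v from h]; exact hi, rfl⟩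
  | _ :: w, _, _, _, _, ⟨y, h1, h2⟩, hi => ⟨y, h1, snoc h2 hi⟩

theorem tail_of_mem {D : List (ℕ × ℕ)} : ∀ {w : List ℕ} {u v x : ℕ}, IsWalk D u w v →
    x ∈ heads D w → ∃ w', IsWalk D x w' v ∧ w' ⊆ w ∧ w'.length < w.length
  | [], u, v, x, _, hx => by simp [heads] at hx
  | i :: w, u, v, x, ⟨y, h1, h2⟩, hx => by
    have hy : (D.getD i (0, 0)).2 = y := by simp [List.getD, h1]
    simp only [heads, List.map_cons, List.mem_cons] at hx
    rcases hx with hx | hx
    · rw [hy] at hx
      subst hx
      exact ⟨w, h2, fun j hj => List.mem_cons_of_mem _ hj, by simp⟩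
    · obtain ⟨w', a, b, c⟩ := tail_of_mem h2 hx
      exact ⟨w', a, fun j hj => List.mem_cons_of_mem _ (b hj), by simp; omega⟩

theorem exists_path {D : List (ℕ × ℕ)} : ∀ (n : ℕ) {w : List ℕ} {u v : ℕ},
    w.length = n → IsWalk D u w v → ∃ w', IsPath D u w' v ∧ w' ⊆ w := by
  intro n
  induction n using Nat.strong_induction_on with
  | _ n ih =>
  intro w u v hn hw
  by_cases hu : u ∈ heads D w
  · obtain ⟨w', a, b, c⟩ := tail_of_mem hw hu
    obtain ⟨w'', h1, h2⟩ := ih w'.length (by omega) rfl a
    exact ⟨w'', h1, fun j hj => b (h2 hj)⟩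
  · cases w with
    | nil => exact ⟨[], ⟨hw, by simp [verts]⟩, List.Subset.refl _⟩
    | cons i w =>
      obtain ⟨y, h1, h2⟩ := hw
      obtain ⟨w', ⟨a1, a2⟩, b⟩ := ih w.length (by simp at hn; omega) rfl h2
      have hy : (D.getD i (0, 0)).2 = y := by simp [List.getD, h1]
      refine ⟨i :: w', ⟨⟨y, h1, a1⟩, ?_⟩, fun j hj => by
        rcases List.mem_cons.1 hj with rfl | hj
        · exact List.mem_cons_self
        · exact List.mem_cons_of_mem _ (b hj)⟩
      have e : verts D u (i :: w') = u :: verts D y w' := by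
        simp only [verts, List.map_cons, hy]
      rw [e, List.nodup_cons]
      refine ⟨?_, a2⟩
      intro hc
      apply hu
      simp only [verts, List.mem_cons] at hc
      simp only [heads, List.map_cons, List.mem_cons, hy]
      rcases hc with hc | hc
      · exact Or.inl hc
      · right
        rw [List.mem_map] at hc ⊢
        obtain ⟨j, hj, e⟩ := hc
        exact ⟨j, b hj, e⟩

theorem leave {D : List (ℕ × ℕ)} {X : Finset ℕ} : ∀ {w : List ℕ} {u v : ℕ}, IsWalk D u w v →
    u ∈ X → v ∉ X → ∃ i ∈ w, ∃ a, D[i]? = some a ∧ lv a X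
  | [], u, v, h, hu, hv => absurd ((show u = v from h) ▸ hu) hv
  | i :: w, u, v, ⟨y, h1, h2⟩, hu, hv => by
    by_cases hy : y ∈ X
    · obtain ⟨j, hj, h⟩ := leave h2 hy hv
      exact ⟨j, List.mem_cons_of_mem _ hj, h⟩
    · exact ⟨i, List.mem_cons_self, (u, y), h1, hu, hy⟩

theorem countP_eq {α : Type*} (p : α → Bool) : ∀ D : List α,
    D.countP p = (Finset.univ.filter (fun i : Fin D.length => p (D.get i) = true)).card
  | [] => by simp
  | a :: D => by
    have ih := countP_eq p D
    rw [List.countP_cons]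
    have h := Fin.card_filter_univ_succ (n := D.length)
      (fun i : Fin (D.length + 1) => p ((a :: D).get i) = true)
    have h2 : (Finset.univ.filter (fun i : Fin (a :: D).length => p ((a :: D).get i) = true)).card =
      (Finset.univ.filter (fun i : Fin (D.length + 1) => p ((a :: D).get i) = true)).card := rfl
    rw [h2, h, ih]
    simp only [List.get_cons_zero, List.get_cons_succ']
    split_ifs <;> rfl

theorem dout_eq (D : List (ℕ × ℕ)) (X : Finset ℕ) :
    dout D X = (Finset.univ.filter (fun i : Fin D.length => lv (D.get i) X)).card := by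
  unfold dout
  rw [countP_eq]
  simp

lemma orbit_aux (D : List (ℕ × ℕ)) (s t k : ℕ) (τ : Equiv.Perm (Fin D.length ⊕ Fin k))
    (h1 : ∀ i : Fin k, ∃ e : Fin D.length, τ (Sum.inr i) = Sum.inl e ∧ (D.get e).1 = s)
    (h2 : ∀ e e' : Fin D.length, τ (Sum.inl e) = Sum.inl e' → e' = e ∨ (D.get e').1 = (D.get e).2)
    (h3 : ∀ (e : Fin D.length) (j : Fin k), τ (Sum.inl e) = Sum.inr j → (D.get e).2 = t)
    (i : Fin k) :
    ∃ w : List ℕ, IsWalk D s w t ∧ ∀ e ∈ w, ∃ (he : e < D.length) (n : ℕ),
      (τ ^ n) (Sum.inr i) = Sum.inl ⟨e, he⟩ ∧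
        ∀ l, 1 ≤ l → l ≤ n → ∃ e', (τ ^ l) (Sum.inr i) = Sum.inl e' := by
  classical
  set x : ℕ → (Fin D.length ⊕ Fin k) := fun n => (τ ^ n) (Sum.inr i) with hx
  have hx0 : x 0 = Sum.inr i := by simp [hx]
  have hxs : ∀ n, x (n + 1) = τ (x n) := by
    intro n
    simp only [hx]
    rw [pow_succ', Equiv.Perm.mul_apply]
  have hex : ∃ n, 1 ≤ n ∧ ∃ j, x n = Sum.inr j := by
    refine ⟨orderOf τ, orderOf_pos τ, i, ?_⟩
    simp [hx, pow_orderOf_eq_one]
  obtain ⟨M, ⟨hM1, jM, hjM⟩, hmin⟩ : ∃ M, (1 ≤ M ∧ ∃ j, x M = Sum.inr j) ∧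
      ∀ n < M, ¬ (1 ≤ n ∧ ∃ j, x n = Sum.inr j) :=
    ⟨Nat.find hex, Nat.find_spec hex, fun n hn => Nat.find_min hex hn⟩
  have hinl : ∀ n, 1 ≤ n → n < M → ∃ e, x n = Sum.inl e := by
    intro n hn hnM
    rcases hxn : x n with e | j
    · exact ⟨e, rfl⟩
    · exact absurd ⟨hn, j, hxn⟩ (hmin n hnM)
  have hM2 : 2 ≤ M := by
    by_contra hlt
    have : M = 1 := by omega
    obtain ⟨e, he, _⟩ := h1 i
    rw [this] at hjM
    rw [show (1 : ℕ) = 0 + 1 from rfl, hxs, hx0, he] at hjM
    cases hjM
  have hget : ∀ (e : Fin D.length), D[(e : ℕ)]? = some ((D.get e).1, (D.get e).2) := by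
    intro e
    rw [List.getElem?_eq_getElem e.2]
    rfl
  have hreach : ∀ n, n + 1 < M → ∀ e, x (n + 1) = Sum.inl e → ∃ w : List ℕ,
      IsWalk D s w (D.get e).2 ∧ ∀ e ∈ w, ∃ (he : e < D.length) (n : ℕ), 1 ≤ n ∧ n < M ∧
        x n = Sum.inl ⟨e, he⟩ := by
    intro n
    induction n with
    | zero =>
      intro hn e he
      obtain ⟨e1, he1, hu⟩ := h1 i
      have he' := he
      rw [hxs, hx0, he1] at he
      have hee : e1 = e := Sum.inl_injective he
      subst hee
      refine ⟨[(e1 : ℕ)], ⟨(D.get e1).2, ?_, rfl⟩, ?_⟩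
      · rw [hget, hu]
      · intro e' he''
        rw [List.mem_singleton] at he''
        subst he''
        exact ⟨e1.2, 1, le_rfl, hn, he'⟩
    | succ n ih =>
      intro hn e he
      obtain ⟨e0, he0⟩ := hinl (n + 1) (by omega) (by omega)
      obtain ⟨w, hw, hwm⟩ := ih (by omega) e0 he0
      rcases h2 e0 e (by rw [← he0, ← hxs, he]) with hee | hee
      · subst hee
        exact ⟨w, hw, hwm⟩
      · refine ⟨w ++ [(e : ℕ)], snoc hw ?_, ?_⟩
        · rw [hget, hee]
        · intro e' he'
          rw [List.mem_append, List.mem_singleton] at he'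
          rcases he' with he' | he'
          · exact hwm e' he'
          · subst he'
            exact ⟨e.2, n + 1 + 1, by omega, hn, he⟩
  obtain ⟨e, he⟩ := hinl (M - 1) (by omega) (by omega)
  have hM' : M - 1 = (M - 2) + 1 := by omega
  have hv : (D.get e).2 = t := by
    apply h3 e jM
    rw [← he, ← hxs, show M - 1 + 1 = M by omega, hjM]
  obtain ⟨w, hw, hwm⟩ := hreach (M - 2) (by omega) e (by rw [← hM', he])
  rw [hv] at hw
  refine ⟨w, hw, ?_⟩
  intro e he
  obtain ⟨he', n, hn1, hnM, hxn⟩ := hwm e he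
  exact ⟨he', n, hxn, fun l hl hln => hinl l hl (by omega)⟩

theorem menger_walk (D : List (ℕ × ℕ)) (s t : ℕ) (hst : s ≠ t) (k : ℕ)
    (h : ∀ X : Finset ℕ, s ∈ X → t ∉ X → k ≤ dout D X) :
    ∃ W : Fin k → List ℕ, (∀ i, IsWalk D s (W i) t) ∧
      ∀ i j, i ≠ j → List.Disjoint (W i) (W j) := by
  classical
  let X := Fin D.length ⊕ Fin k
  let f0 : X → Finset X := fun x => Finset.univ.filter fun y =>
    match x, y with
    | Sum.inl e, Sum.inl e' => e' = e ∨ (D.get e').1 = (D.get e).2
    | Sum.inl e, Sum.inr _ => (D.get e).2 = t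
    | Sum.inr _, Sum.inl e' => (D.get e').1 = s
    | Sum.inr _, Sum.inr _ => False
  have hall : ∀ A : Finset X, A.card ≤ (A.biUnion f0).card := by
    intro A
    have hA : A.card = A.toLeft.card + A.toRight.card :=
      (Finset.card_toLeft_add_card_toRight).symm
    have hB : (A.biUnion f0).card = (A.biUnion f0).toLeft.card + (A.biUnion f0).toRight.card :=
      (Finset.card_toLeft_add_card_toRight).symm
    have hAB : A.toLeft ⊆ (A.biUnion f0).toLeft := by
      intro e he
      rw [Finset.mem_toLeft] at he ⊢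
      refine Finset.mem_biUnion.2 ⟨_, he, ?_⟩
      rw [Finset.mem_filter]
      exact ⟨Finset.mem_univ _, Or.inl rfl⟩
    have hAm : A.toRight.card ≤ k := by
      have := Finset.card_le_univ A.toRight
      simpa using this
    by_cases hA2 : A.toRight = ∅
    · have := Finset.card_le_card hAB
      rw [hA2, Finset.card_empty] at hA
      omega
    · obtain ⟨i0, hi0⟩ := Finset.nonempty_iff_ne_empty.2 hA2
      rw [Finset.mem_toRight] at hi0
      by_cases hv : ∃ e ∈ A.toLeft, (D.get e).2 = t
      · obtain ⟨e, he, hve⟩ := hv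
        rw [Finset.mem_toLeft] at he
        have hB2 : (A.biUnion f0).toRight = Finset.univ := by
          ext j
          simp only [Finset.mem_toRight, Finset.mem_univ, iff_true]
          refine Finset.mem_biUnion.2 ⟨_, he, ?_⟩
          simp only [f0, Finset.mem_filter, Finset.mem_univ, true_and]
          exact hve
        have := Finset.card_le_card hAB
        rw [hB2, Finset.card_univ, Fintype.card_fin] at hB
        omega
      · push Not at hv
        let S : Finset ℕ := insert s (A.toLeft.image fun e => (D.get e).2)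
        have htS : t ∉ S := by
          simp only [S, Finset.mem_insert, Finset.mem_image, not_or, not_exists, not_and]
          exact ⟨fun h => hst h.symm, hv⟩
        have hcut := h S (Finset.mem_insert_self _ _) htS
        rw [dout_eq] at hcut
        set C' : Finset (Fin D.length) := Finset.univ.filter fun e => lv (D.get e) S with hC'
        have hsub : A.toLeft ∪ C' ⊆ (A.biUnion f0).toLeft := by
          apply Finset.union_subset hAB
          intro e he
          rw [hC', Finset.mem_filter] at he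
          obtain ⟨_, hxS, _⟩ := he
          rw [Finset.mem_toLeft]
          rcases Finset.mem_insert.1 hxS with hxs | hxS
          · refine Finset.mem_biUnion.2 ⟨_, hi0, ?_⟩
            simp only [f0, Finset.mem_filter, Finset.mem_univ, true_and]
            exact hxs
          · obtain ⟨e0, he0, hx0⟩ := Finset.mem_image.1 hxS
            rw [Finset.mem_toLeft] at he0
            refine Finset.mem_biUnion.2 ⟨_, he0, ?_⟩
            simp only [f0, Finset.mem_filter, Finset.mem_univ, true_and]
            exact Or.inr hx0.symm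
        have hdisj : Disjoint A.toLeft C' := by
          rw [Finset.disjoint_left]
          intro e he he'
          rw [hC', Finset.mem_filter] at he'
          apply he'.2.2
          exact Finset.mem_insert_of_mem (Finset.mem_image.2 ⟨e, he, rfl⟩)
        have := Finset.card_le_card hsub
        rw [Finset.card_union_of_disjoint hdisj] at this
        omega
  obtain ⟨f, hf, hft⟩ := (Finset.all_card_le_biUnion_card_iff_exists_injective f0).1 hall
  have hbij : Function.Bijective f := Finite.injective_iff_bijective.1 hf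
  let τ : Equiv.Perm X := Equiv.ofBijective f hbij
  have hτ : ∀ x, τ x = f x := fun _ => rfl
  have h1 : ∀ i : Fin k, ∃ e : Fin D.length, τ (Sum.inr i) = Sum.inl e ∧ (D.get e).1 = s := by
    intro i
    have := hft (Sum.inr i)
    rw [← hτ] at this
    rcases hy : τ (Sum.inr i) with e | j
    · rw [hy] at this
      simp only [f0, Finset.mem_filter, Finset.mem_univ, true_and] at this
      exact ⟨e, rfl, this⟩
    · rw [hy] at this
      simp [f0] at this
  have h2 : ∀ e e' : Fin D.length, τ (Sum.inl e) = Sum.inl e' →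
      e' = e ∨ (D.get e').1 = (D.get e).2 := by
    intro e e' hy
    have := hft (Sum.inl e)
    rw [← hτ, hy] at this
    simpa only [f0, Finset.mem_filter, Finset.mem_univ, true_and] using this
  have h3 : ∀ (e : Fin D.length) (j : Fin k), τ (Sum.inl e) = Sum.inr j → (D.get e).2 = t := by
    intro e j hy
    have := hft (Sum.inl e)
    rw [← hτ, hy] at this
    simpa only [f0, Finset.mem_filter, Finset.mem_univ, true_and] using this
  choose p hp hpe using orbit_aux D s t k τ h1 h2 h3
  refine ⟨p, hp, ?_⟩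
  intro i j hij
  rw [List.disjoint_left]
  intro e hei hej
  obtain ⟨he, n, hn, hnl⟩ := hpe i e hei
  obtain ⟨_, n', hn', hnl'⟩ := hpe j e hej
  -- symmetric statement
  have key : ∀ (i j : Fin k) (n n' : ℕ), i ≠ j → n ≤ n' →
      (τ ^ n) (Sum.inr i) = (τ ^ n') (Sum.inr j) →
      (∀ l, 1 ≤ l → l ≤ n' → ∃ e', (τ ^ l) (Sum.inr j) = Sum.inl e') → False := by
    intro i j n n' hij hnn heq hl
    have h5 : (Sum.inr i : X) = (τ ^ (n' - n)) (Sum.inr j) := by
      apply (τ ^ n).injective
      rw [heq, ← Equiv.Perm.mul_apply, ← pow_add, show n + (n' - n) = n' by omega]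
    rcases Nat.eq_zero_or_pos (n' - n) with h0 | h0
    · rw [h0, pow_zero, Equiv.Perm.one_apply] at h5
      exact hij (Sum.inr_injective h5)
    · obtain ⟨e', he'⟩ := hl (n' - n) h0 (by omega)
      rw [he'] at h5
      cases h5
  rcases le_total n n' with hnn | hnn
  · exact key i j n n' hij hnn (hn.trans hn'.symm) hnl'
  · exact key j i n' n (Ne.symm hij) hnn (hn'.trans hn.symm) hnl

end Meng

open Meng

theorem menger (D : List (ℕ × ℕ)) (s t : ℕ) (hst : s ≠ t) (k : ℕ) :
    (∃ W : Fin k → List ℕ, (∀ i, IsPath D s (W i) t) ∧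
      ∀ i j, i ≠ j → List.Disjoint (W i) (W j)) ↔
      ∀ X : Finset ℕ, s ∈ X → t ∉ X → k ≤ dout D X := by
  classical
  constructor
  · rintro ⟨W, hW, hd⟩ X hs ht
    rw [dout_eq]
    have h1 : ∀ i, ∃ e : Fin D.length, (e : ℕ) ∈ W i ∧ lv (D.get e) X := by
      intro i
      obtain ⟨j, hj, a, ha, hl⟩ := leave (hW i).1 hs ht
      obtain ⟨hlt, hja⟩ := List.getElem?_eq_some_iff.1 ha
      exact ⟨⟨j, hlt⟩, hj, by
        have : D.get ⟨j, hlt⟩ = a := hja
        rw [this]
        exact hl⟩
    choose e he hle using h1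
    have hinj : Function.Injective e := by
      intro i j hij
      by_contra hne
      exact hd i j hne (he i) (hij ▸ he j)
    calc k = (Finset.univ : Finset (Fin k)).card := by simp
      _ = (Finset.univ.image e).card := (Finset.card_image_of_injective _ hinj).symm
      _ ≤ _ := by
        apply Finset.card_le_card
        intro x hx
        rw [Finset.mem_image] at hx
        obtain ⟨i, _, rfl⟩ := hx
        rw [Finset.mem_filter]
        exact ⟨Finset.mem_univ _, hle i⟩
  · intro h
    obtain ⟨W, hW, hd⟩ := menger_walk D s t hst k h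
    have h1 : ∀ i, ∃ w', IsPath D s w' t ∧ w' ⊆ W i := fun i => exists_path _ rfl (hW i)
    choose W' hW' hsub using h1
    refine ⟨W', hW', fun i j hij => ?_⟩
    intro e he he'
    exact hd i j hij (hsub i he) (hsub j he')

end Pool.Agent.H685R2.STA
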