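import Pool.Agent.H685R2.STA.Alg
import Pool.Agent.H671R2.PolyAuto

namespace Pool.Agent.NPC.H685STA

open Pool.Agent.H685R2.STA

variable {α : Type} [TEnc α]

theorem pcap_replicate {β : Type} [TEnc β] {n : α → ℕ} {x : α → β} (hn : UPoly n)
    (hx : Poly x) : Poly (fun a => List.replicate (n a) (x a)) := by
  have h : Poly (fun p : α × Unit => x p.1) := by fun_prop
  exact (Poly.map (F := fun a (_ : Unit) => x a) hn h).congr fun a => by
    rw [List.map_replicate]

theorem pcap_prec {P : α → List (ℕ × ℕ)} {B : α → ℕ} (hP : Poly P) (hB : UPoly B) :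
    UPoly (fun a => prec (P a).length (B a)) :=
  UPoly.add (UPoly.mul (UPoly.mul (UPoly.const 2) hB) (UPoly.mul (UPoly.length hP)
    (UPoly.length hP))) (UPoly.const 1)

theorem poly_capn {D P : α → List (ℕ × ℕ)} {B : α → ℕ} {w : α → List ℕ} (hD : Poly D)
    (hP : Poly P) (hB : UPoly B) (hw : Poly w) :
    Poly (fun a => capn (D a) (P a) (B a) (w a)) := by
  have hZ := pcap_prec hP hB
  have hf : Poly (fun p : α × ((ℕ × ℕ) × ℕ) => p.1) := by fun_prop
  have hB' : UPoly (fun p : α × ((ℕ × ℕ) × ℕ) => B p.1) := UPoly.comp (n := B) hB hf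
  have hZ' : UPoly (fun p : α × ((ℕ × ℕ) × ℕ) => prec (P p.1).length (B p.1)) :=
    UPoly.comp (n := fun a => prec (P a).length (B a)) hZ hf
  have hBp := UPoly.toPoly hB'
  have hZp := UPoly.toPoly hZ'
  have hcnt : Poly (fun p : α × ((ℕ × ℕ) × ℕ) => B p.1 * min (prec (P p.1).length (B p.1))
      (prec (P p.1).length (B p.1) * p.2.2 / (w p.1).sum)) :=
    Poly.mul hBp (Poly.min hZp (Poly.div (Poly.mul hZp (by fun_prop)) (Poly.sum (by fun_prop))))
  have hU : UPoly (fun p : α × ((ℕ × ℕ) × ℕ) => B p.1 * min (prec (P p.1).length (B p.1))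
      (prec (P p.1).length (B p.1) * p.2.2 / (w p.1).sum)) :=
    UPoly.of_le hcnt (UPoly.mul hB' hZ') fun p => Nat.mul_le_mul_left _ (min_le_left _ _)
  have hx : Poly (fun p : α × ((ℕ × ℕ) × ℕ) => p.2.1) := by fun_prop
  exact Poly.append (Poly.flatten (pcap_replicate hZ hD))
    (Poly.flatMap (Poly.zip hP hw) (pcap_replicate hU hx))

end Pool.Agent.NPC.H685STA
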