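import Pool.Agent.H685R2.STA.Alg
import Pool.Agent.H671R2.PolyAuto

namespace Pool.Agent.NPC.H685STA

open Pool.Agent.H685R2.STA

variable {α : Type} [TEnc α]

namespace PCut

theorem sz_perm {β : Type} [TEnc β] {l l' : List β} (h : l.Perm l') : sz l = sz l' := by
  induction h with
  | nil => rfl
  | cons a _ ih => rw [sz_list_cons, sz_list_cons, ih]
  | swap a b l => rw [sz_list_cons, sz_list_cons, sz_list_cons, sz_list_cons]; omega
  | trans _ _ ih1 ih2 => rw [ih1, ih2]

theorem cons_rem_perm {a : ℕ × ℕ} {C : List (ℕ × ℕ)} (h : a ∈ C) : (a :: rem a C).Perm C := by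
  unfold rem
  have h1 : (C.filter (fun b => decide (b = a)) ++ C.filter (fun b => !decide (b = a))).Perm C :=
    List.filter_append_perm _ _
  have h2 : C.filter (fun b => decide (b = a)) = a :: (C.filter fun b => decide (b = a)).tail := by
    cases hc : C.filter (fun b => decide (b = a)) with
    | nil =>
      exfalso
      have : a ∈ C.filter (fun b => decide (b = a)) := List.mem_filter.2 ⟨h, by simp⟩
      rw [hc] at this
      simp at this
    | cons b l =>
      have : b ∈ C.filter (fun b => decide (b = a)) := by rw [hc]; simp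
      have hb := (List.mem_filter.1 this).2
      simp at hb
      subst hb
      rfl
  rw [h2] at h1
  refine List.Perm.trans ?_ h1
  rw [List.cons_append]
  exact List.Perm.cons _ List.perm_append_comm

theorem sz_push (a : ℕ × ℕ) (C : List (ℕ × ℕ)) : sz (push a C) = sz C := by
  unfold push
  split_ifs with h
  · rw [← sz_perm (cons_rem_perm h), sz_list_cons, sz_list_cons, sz_pair]
    obtain ⟨x, y⟩ := a
    rw [sz_pair x y]
    change sz y + sz x + 1 + sz (rem (x, y) C) + 1 = _
    omega
  · rfl

theorem poly_leave {C : α → List (ℕ × ℕ)} {X : α → List ℕ} (hC : Poly C) (hX : Poly X) :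
    Poly (fun a => leave (C a) (X a)) := by
  unfold leave
  fun_prop

theorem poly_rem {C : α → List (ℕ × ℕ)} {x : α → ℕ × ℕ} (hC : Poly C) (hx : Poly x) :
    Poly (fun a => rem (x a) (C a)) := by
  unfold rem
  fun_prop

attribute [fun_prop] poly_leave poly_rem
attribute [local irreducible] leave rem

theorem poly_push {C : α → List (ℕ × ℕ)} {x : α → ℕ × ℕ} (hC : Poly C) (hx : Poly x) :
    Poly (fun a => push (x a) (C a)) := by
  unfold push
  fun_prop

theorem poly_reach {s : α → ℕ} {Tr : α → List (ℕ × ℕ)} (hs : Poly s) (hTr : Poly Tr) :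
    Poly (fun a => reach (s a) (Tr a)) := by
  unfold reach
  exact Poly.cons hs (Poly.map (F := fun _ x => x.2) hTr (by fun_prop))

attribute [fun_prop] poly_push poly_reach
attribute [local irreducible] push reach

theorem poly_ext {C : α → List (ℕ × ℕ)} {s : α → ℕ} {Tr : α → List (ℕ × ℕ)} (hC : Poly C)
    (hs : Poly s) (hTr : Poly Tr) : Poly (fun a => ext (C a) (s a) (Tr a)) := by
  unfold ext
  fun_prop

attribute [fun_prop] poly_ext

theorem sz_ext (C : List (ℕ × ℕ)) (s : ℕ) (Tr : List (ℕ × ℕ)) :
    sz (ext C s Tr) ≤ sz Tr + sz C := by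
  unfold ext
  cases h : (leave C (reach s Tr)).head? with
  | none => simp
  | some a =>
    have ha : a ∈ leave C (reach s Tr) := List.mem_of_mem_head? h
    have hm : a ∈ C := by
      unfold leave at ha
      exact (List.mem_filter.1 ha).1
    have := sz_le_of_mem hm
    simp only [Option.elim_some, sz_list_cons]
    omega

theorem sz_ext_iter (C : List (ℕ × ℕ)) (s : ℕ) (k : ℕ) :
    sz ((ext C s)^[k] []) ≤ 1 + k * sz C := by
  induction k with
  | zero => simp
  | succ k ih =>
    rw [Function.iterate_succ', Function.comp_apply]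
    have := sz_ext C s ((ext C s)^[k] [])
    rw [Nat.succ_mul]
    omega

attribute [local irreducible] ext

theorem poly_tree {C : α → List (ℕ × ℕ)} {s : α → ℕ} (hC : Poly C) (hs : Poly s) :
    Poly (fun a => tree (C a) (s a)) := by
  unfold tree
  obtain ⟨r, hr⟩ := hC.sz_le
  refine Poly.iterLen (l := C) (s := fun _ => ([] : List (ℕ × ℕ)))
    (F := fun a Tr => ext (C a) (s a) Tr) hC (Poly.const _) ?_ (1 + r * r) ?_
  · exact poly_ext (hC.comp (Poly.fst Poly.id)) (hs.comp (Poly.fst Poly.id)) (Poly.snd Poly.id)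
  · intro a k hk
    refine (sz_ext_iter (C a) (s a) k).trans ?_
    have h1 := hr a
    have h2 := length_lt_sz (C a)
    simp only [Polynomial.eval_add, Polynomial.eval_mul, Polynomial.eval_one]
    have : k * sz (C a) ≤ r.eval (sz a) * r.eval (sz a) :=
      Nat.mul_le_mul (by omega) h1
    omega

theorem poly_back : Poly (fun p : (ℕ × List (ℕ × ℕ)) × (ℕ × ℕ) => back p.1 p.2) := by
  unfold back
  fun_prop

theorem back_sz (l : List (ℕ × ℕ)) : ∀ x : ℕ × List (ℕ × ℕ),
    sz (l.foldl back x).2 = sz x.2 ∧ sz (l.foldl back x).1 ≤ sz x.1 + sz l := by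
  induction l with
  | nil => intro x; simp
  | cons a l ih =>
    intro x
    rw [List.foldl_cons]
    obtain ⟨h1, h2⟩ := ih (back x a)
    have e1 : sz (back x a).2 = sz x.2 := by
      unfold back
      split_ifs
      · exact sz_push a x.2
      · rfl
    have e2 : sz (back x a).1 ≤ sz x.1 + sz a := by
      unfold back
      obtain ⟨u, v⟩ := a
      split_ifs
      · simp only [sz_pair]; omega
      · omega
    refine ⟨h1.trans e1, ?_⟩
    rw [sz_list_cons]
    omega

theorem sz_aug (s t : ℕ) (C : List (ℕ × ℕ)) : sz (aug s t C) = sz C := by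
  unfold aug
  split_ifs
  · exact (back_sz _ _).1
  · rfl

attribute [fun_prop] poly_tree
attribute [local irreducible] tree

theorem poly_aug {C : α → List (ℕ × ℕ)} {s t : α → ℕ} (hC : Poly C) (hs : Poly s)
    (ht : Poly t) : Poly (fun a => aug (s a) (t a) (C a)) := by
  unfold aug
  have htree : Poly (fun a => tree (C a) (s a)) := poly_tree hC hs
  obtain ⟨r, hr⟩ := hC.sz_le
  obtain ⟨r1, hr1⟩ := ht.sz_le
  obtain ⟨r2, hr2⟩ := htree.sz_le
  have hfold : Poly (fun a => (tree (C a) (s a)).foldl back (t a, C a)) := by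
    refine Poly.foldl (l := fun a => tree (C a) (s a)) (s := fun a => (t a, C a))
      (F := fun _ x b => back x b) htree (Poly.pair ht hC) ?_ (r + r1 + r2 + 1) ?_
    · exact poly_back.comp (Poly.pair (Poly.fst (Poly.snd Poly.id)) (Poly.snd (Poly.snd Poly.id)))
    · intro a k _
      obtain ⟨h1, h2⟩ := back_sz ((tree (C a) (s a)).take k) (t a, C a)
      have h3 := Poly.sz_take_le (tree (C a) (s a)) k
      have h4 := hr a
      have h5 := hr1 a
      have h6 := hr2 a
      have h7 : sz (((tree (C a) (s a)).take k).foldl back (t a, C a)) =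
          sz (((tree (C a) (s a)).take k).foldl back (t a, C a)).1 +
            sz (((tree (C a) (s a)).take k).foldl back (t a, C a)).2 + 1 := by
        rw [← sz_pair]
      change sz (((tree (C a) (s a)).take k).foldl back (t a, C a)) ≤ _
      rw [h7, h1]
      simp only [Polynomial.eval_add, Polynomial.eval_one]
      simp only at h2
      omega
  fun_prop

attribute [local irreducible] aug

theorem sz_aug_iter (s t : ℕ) (C : List (ℕ × ℕ)) (k : ℕ) : sz ((aug s t)^[k] C) = sz C := by
  induction k with
  | zero => rfl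
  | succ k ih => rw [Function.iterate_succ', Function.comp_apply, sz_aug, ih]

theorem poly_flow {C : α → List (ℕ × ℕ)} {s t : α → ℕ} (hC : Poly C) (hs : Poly s)
    (ht : Poly t) : Poly (fun a => flow (s a) (t a) (C a)) := by
  unfold flow
  obtain ⟨r, hr⟩ := hC.sz_le
  refine Poly.iterLen (l := C) (s := C) (F := fun a C' => aug (s a) (t a) C') hC hC ?_ r ?_
  · exact poly_aug (Poly.snd Poly.id) (hs.comp (Poly.fst Poly.id)) (ht.comp (Poly.fst Poly.id))
  · intro a k _
    exact (sz_aug_iter _ _ _ _).le.trans (hr a)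

end PCut

open PCut in
theorem poly_cutL {C : α → List (ℕ × ℕ)} {s t : α → ℕ} (hC : Poly C) (hs : Poly s)
    (ht : Poly t) : Poly (fun a => cutL (C a) (s a) (t a)) := by
  unfold cutL
  exact poly_reach hs (poly_tree (poly_flow hC hs ht) hs)

end Pool.Agent.NPC.H685STA
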