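import Pool.Agent.H685R2.STA.PStep

namespace Pool.Agent.NPC.H685STA

open Pool.Agent.H685R2.STA

variable {α : Type} [TEnc α]

namespace PDecAux

/-- the states after `r` rounds have small entries -/
def Small (N M r : ℕ) (o : Option (List ℕ)) : Prop :=
  ∀ w, o = some w → w.length ≤ N ∧ ∀ x ∈ w, x ≤ (M + 1) ^ r

theorem small_upd {P : List (ℕ × ℕ)} {M r : ℕ} {w X : List ℕ} (hw : ∀ x ∈ w, x ≤ (M + 1) ^ r) :
    (upd P M w X).length ≤ P.length ∧ ∀ x ∈ upd P M w X, x ≤ (M + 1) ^ (r + 1) := by
  unfold upd
  constructor
  · rw [List.length_map, List.length_zip]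
    exact Nat.min_le_left _ _
  · intro x hx
    rw [List.mem_map] at hx
    obtain ⟨e, he, rfl⟩ := hx
    have h1 := hw _ (List.of_mem_zip (a := e.1) (b := e.2) he).2
    rw [pow_succ]
    refine Nat.mul_le_mul h1 ?_
    split_ifs <;> omega

theorem small_step {D P : List (ℕ × ℕ)} {K : List Unit} {B r : ℕ} {o : Option (List ℕ)}
    (ho : Small P.length (2 * P.length * K.length) r o) :
    Small P.length (2 * P.length * K.length) (r + 1) (step D P K B o) := by
  intro w' hw'
  unfold step at hw'
  cases o with
  | none => simp at hw'
  | some w =>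
    simp only [Option.elim_some] at hw'
    cases hv : viol D P K B w with
    | none => rw [hv] at hw'; simp at hw'
    | some X =>
      rw [hv] at hw'
      simp only [Option.elim_some, Option.some.injEq] at hw'
      subst hw'
      exact small_upd (ho w rfl).2

theorem small_iter (D P : List (ℕ × ℕ)) (K : List Unit) (B r : ℕ) :
    Small P.length (2 * P.length * K.length) r
      ((step D P K B)^[r] (some (P.map fun _ => 1))) := by
  induction r with
  | zero =>
    intro w hw
    simp only [Function.iterate_zero, id_eq, Option.some.injEq] at hw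
    subst hw
    refine ⟨by simp, fun x hx => ?_⟩
    rw [List.mem_map] at hx
    obtain ⟨_, _, rfl⟩ := hx
    simp
  | succ r ih =>
    rw [Function.iterate_succ_apply']
    exact small_step ih

theorem sz_small {N M r R : ℕ} (hr : r ≤ R) {o : Option (List ℕ)} (ho : Small N M r o) :
    sz o ≤ N * (4 * ((M + 1) * R) + 6) + 3 := by
  cases o with
  | none => simp only [sz_none]; omega
  | some w =>
    obtain ⟨h1, h2⟩ := ho w rfl
    have h3 : ∀ x ∈ w, sz x ≤ 4 * ((M + 1) * R) + 5 := by
      intro x hx
      have h4 := sz_nat_le x
      have h5 : x.size ≤ (M + 1) * R + 1 := by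
        rw [Nat.size_le]
        calc x ≤ (M + 1) ^ r := h2 x hx
          _ ≤ (M + 1) ^ R := Nat.pow_le_pow_right (by omega) hr
          _ ≤ (2 ^ (M + 1)) ^ R := Nat.pow_le_pow_left (Nat.lt_two_pow_self).le _
          _ = 2 ^ ((M + 1) * R) := (pow_mul _ _ _).symm
          _ < 2 ^ ((M + 1) * R + 1) := Nat.pow_lt_pow_right (by norm_num) (by omega)
      omega
    have h6 := sz_le_length_mul w _ h3
    rw [sz_some]
    have h7 : w.length * (4 * ((M + 1) * R) + 5 + 1) ≤ N * (4 * ((M + 1) * R) + 6) :=
      Nat.mul_le_mul h1 (by omega)
    omega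

end PDecAux

open PDecAux

theorem poly_dec {D P : α → List (ℕ × ℕ)} {K : α → List Unit} {B : α → ℕ}
    (hD : Poly D) (hP : Poly P) (hK : Poly K) (hB : Poly B) :
    Poly (fun a => dec (D a) (P a) (K a) (B a)) := by
  have uP : UPoly (fun a => (P a).length) := UPoly.length hP
  have uK : UPoly (fun a => (K a).length) := UPoly.length hK
  have uB : UPoly (fun a => min (B a) ((P a).length * (K a).length)) :=
    UPoly.of_le (Poly.min hB (UPoly.mul uP uK).toPoly) (UPoly.mul uP uK)
      (fun a => Nat.min_le_right _ _)
  have uR : UPoly (fun a => rounds (P a).length (K a).length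
      (min (B a) ((P a).length * (K a).length))) := by
    unfold rounds
    exact UPoly.add (UPoly.mul (UPoly.mul (UPoly.mul (UPoly.const 8)
      (UPoly.mul (UPoly.mul uP uP) uP)) uK) uB) (UPoly.const 1)
  obtain ⟨pP, hpP⟩ := Poly.sz_le hP
  obtain ⟨pK, hpK⟩ := Poly.sz_le hK
  obtain ⟨pR, hpR⟩ := Poly.sz_le uR
  have hit : Poly (fun a => (step (D a) (P a) (K a) (min (B a) ((P a).length * (K a).length)))^[
      (List.replicate (rounds (P a).length (K a).length
        (min (B a) ((P a).length * (K a).length))) ()).length] (some ((P a).map fun _ => 1))) := by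
    refine Poly.iterLen (l := fun a => List.replicate (rounds (P a).length (K a).length
        (min (B a) ((P a).length * (K a).length))) ())
      (F := fun a => step (D a) (P a) (K a) (min (B a) ((P a).length * (K a).length)))
      uR ?_ ?_
      (pP * (Polynomial.C 4 * ((Polynomial.C 2 * pP * pK + Polynomial.C 1) * pR) + Polynomial.C 6) +
        Polynomial.C 3) ?_
    · exact Poly.some (Poly.map hP (F := fun _ _ => 1) (Poly.const 1))
    · exact poly_step (hD.comp (Poly.fst Poly.id)) (hP.comp (Poly.fst Poly.id))
        (hK.comp (Poly.fst Poly.id)) (UPoly.comp uB (Poly.fst Poly.id)) (Poly.snd Poly.id)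
    · intro a k hk
      have h1 := sz_small hk (small_iter (D a) (P a) (K a)
        (min (B a) ((P a).length * (K a).length)) k)
      refine h1.trans ?_
      have e1 : (P a).length ≤ pP.eval (sz a) := (length_lt_sz _).le.trans (hpP a)
      have e2 : (K a).length ≤ pK.eval (sz a) := (length_lt_sz _).le.trans (hpK a)
      have e3 : (List.replicate (rounds (P a).length (K a).length
        (min (B a) ((P a).length * (K a).length))) ()).length ≤ pR.eval (sz a) :=
        (length_lt_sz _).le.trans (hpR a)
      simp only [Polynomial.eval_add, Polynomial.eval_mul, Polynomial.eval_C]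
      gcongr
  have hn : Poly (fun a => ((step (D a) (P a) (K a) (min (B a) ((P a).length * (K a).length)))^[
      (List.replicate (rounds (P a).length (K a).length
        (min (B a) ((P a).length * (K a).length))) ()).length]
          (some ((P a).map fun _ => 1))).isNone) :=
    (Poly.optElim (g := fun _ => true) (h := fun _ _ => false) hit (Poly.const true)
      (Poly.const false)).congr fun a => by
        generalize (step (D a) (P a) (K a) (min (B a) ((P a).length * (K a).length)))^[
          (List.replicate (rounds (P a).length (K a).length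
            (min (B a) ((P a).length * (K a).length))) ()).length]
            (some ((P a).map fun _ => 1)) = o
        cases o <;> rfl
  refine hn.congr fun a => ?_
  unfold dec dec0
  rw [List.length_replicate]

end Pool.Agent.NPC.H685STA
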