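import Pool.Agent.H685R2.STA.PDec

namespace Pool.Agent.NPC.H685STA

open Pool.Agent.H685R2.STA

variable {α : Type} [TEnc α]

theorem optv_le (D P : List (ℕ × ℕ)) (K : List Unit) : optv D P K ≤ P.length * K.length := by
  unfold optv
  rcases h : ((List.range (P.length * K.length + 1)).filter fun B => dec D P K B).head? with _ | b
  · simp
  · have h1 := List.mem_of_mem_head? (Option.mem_def.2 h)
    have h2 := List.mem_range.1 (List.mem_of_mem_filter h1)
    simp only [Option.getD_some]
    omega

theorem poly_optv {D P : α → List (ℕ × ℕ)} {K : α → List Unit}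
    (hD : Poly D) (hP : Poly P) (hK : Poly K) :
    Poly (fun a => optv (D a) (P a) (K a)) := by
  unfold optv
  have hr : Poly (fun a => List.range ((P a).length * (K a).length + 1)) :=
    (((UPoly.length hP).mul (UPoly.length hK)).add (UPoly.const 1)).range
  have hd : Poly (fun p : α × ℕ => dec (D p.1) (P p.1) (K p.1) p.2) :=
    poly_dec (hD.comp (Poly.fst Poly.id)) (hP.comp (Poly.fst Poly.id))
      (hK.comp (Poly.fst Poly.id)) (Poly.snd Poly.id)
  have hf := Poly.filter (p := fun a B => dec (D a) (P a) (K a) B) hr hd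
  exact Poly.optGetD (Poly.head? hf) (Poly.const 0)

theorem upoly_optv {D P : α → List (ℕ × ℕ)} {K : α → List Unit}
    (hD : Poly D) (hP : Poly P) (hK : Poly K) :
    UPoly (fun a => optv (D a) (P a) (K a)) :=
  UPoly.of_le (poly_optv hD hP hK) ((UPoly.length hP).mul (UPoly.length hK))
    (fun a => optv_le _ _ _)

/-- the foldr of `build` over an arbitrary list -/
theorem build_aux (D P : List (ℕ × ℕ)) (K : List Unit) (L : List ℕ) :
    (L.foldr (fun j F =>
      (P.filter fun a => dec (D ++ a :: F) P K j).head?.elim F fun a => a :: F) []).length ≤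
        L.length ∧
    ∀ x ∈ (L.foldr (fun j F =>
      (P.filter fun a => dec (D ++ a :: F) P K j).head?.elim F fun a => a :: F) []), x ∈ P := by
  induction L with
  | nil => simp
  | cons j L ih =>
    rw [List.foldr_cons]
    set F := L.foldr (fun j F =>
      (P.filter fun a => dec (D ++ a :: F) P K j).head?.elim F fun a => a :: F) [] with hF
    rcases h : (P.filter fun a => dec (D ++ a :: F) P K j).head? with _ | b
    · simp only [Option.elim_none, List.length_cons]
      exact ⟨by omega, ih.2⟩
    · have h1 := List.mem_of_mem_head? (Option.mem_def.2 h)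
      have h2 := List.mem_of_mem_filter h1
      simp only [Option.elim_some, List.length_cons]
      refine ⟨by omega, ?_⟩
      intro x hx
      rcases List.mem_cons.1 hx with rfl | hx
      · exact h2
      · exact ih.2 x hx

theorem poly_build {D P : α → List (ℕ × ℕ)} {K : α → List Unit} {B : α → ℕ}
    (hD : Poly D) (hP : Poly P) (hK : Poly K) (hB : UPoly B) :
    Poly (fun a => build (D a) (P a) (K a) (B a)) := by
  obtain ⟨r, hr⟩ := hB.sz_le
  obtain ⟨q, hq⟩ := hP.sz_le
  unfold build
  have hD' : Poly (fun p : (α × ℕ × List (ℕ × ℕ)) × (ℕ × ℕ) => D p.1.1 ++ p.2 :: p.1.2.2) :=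
    Poly.append (hD.comp (Poly.fst (Poly.fst Poly.id)))
      (Poly.cons (Poly.snd Poly.id) (Poly.snd (Poly.snd (Poly.fst Poly.id))))
  have hd : Poly (fun p : (α × ℕ × List (ℕ × ℕ)) × (ℕ × ℕ) =>
      dec (D p.1.1 ++ p.2 :: p.1.2.2) (P p.1.1) (K p.1.1) p.1.2.1) :=
    poly_dec hD' (hP.comp (Poly.fst (Poly.fst Poly.id))) (hK.comp (Poly.fst (Poly.fst Poly.id)))
      (Poly.fst (Poly.snd (Poly.fst Poly.id)))
  have hf := Poly.filter (l := fun p : α × ℕ × List (ℕ × ℕ) => P p.1)
    (p := fun p x => dec (D p.1 ++ x :: p.2.2) (P p.1) (K p.1) p.2.1)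
    (hP.comp (Poly.fst Poly.id)) hd
  have hF : Poly (fun p : α × ℕ × List (ℕ × ℕ) =>
      ((P p.1).filter fun x => dec (D p.1 ++ x :: p.2.2) (P p.1) (K p.1) p.2.1).head?.elim
        p.2.2 fun x => x :: p.2.2) :=
    Poly.optElim (h := fun p x => x :: p.2.2) (Poly.head? hf) (Poly.snd (Poly.snd Poly.id))
      (Poly.cons (Poly.snd Poly.id) (Poly.snd (Poly.snd (Poly.fst Poly.id))))
  refine Poly.foldr (l := fun a => List.range (B a)) (s := fun _ => ([] : List (ℕ × ℕ)))
    (F := fun a j F => ((P a).filter fun x => dec (D a ++ x :: F) (P a) (K a) j).head?.elim F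
      fun x => x :: F) hB.range (Poly.const _) hF
    (r * (q + Polynomial.C 1) + Polynomial.C 1) ?_
  intro a k hk
  have h1 := build_aux (D a) (P a) (K a) ((List.range (B a)).drop k)
  have h2 := sz_le_length_mul _ (q.eval (sz a)) (fun x hx =>
    ((sz_le_of_mem (h1.2 x hx)).le.trans (hq a)))
  refine h2.trans ?_
  have h3 : B a ≤ r.eval (sz a) := by
    have e1 := hr a
    have e2 := length_lt_sz (List.replicate (B a) ())
    simp only [List.length_replicate] at e2
    exact e2.le.trans e1
  have h4 : ((List.range (B a)).drop k).length ≤ B a := by simp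
  simp only [Polynomial.eval_add, Polynomial.eval_mul, Polynomial.eval_C]
  exact Nat.add_le_add_right (Nat.mul_le_mul_right _ (h1.1.trans (h4.trans h3))) 1

theorem poly_sol {D P : α → List (ℕ × ℕ)} {K : α → List Unit}
    (hD : Poly D) (hP : Poly P) (hK : Poly K) :
    Poly (fun a => sol (D a) (P a) (K a)) := by
  unfold sol
  exact poly_build hD hP hK (upoly_optv hD hP hK)

attribute [fun_prop] poly_sol
attribute [local irreducible] sol

theorem poly_pairs {S T : α → List ℕ} (hS : Poly S) (hT : Poly T) :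
    Poly (fun a => pairs (S a) (T a)) := by
  unfold pairs
  fun_prop

attribute [fun_prop] poly_pairs
attribute [local irreducible] pairs

theorem poly_core : Poly core := by
  unfold core
  fun_prop

attribute [local irreducible] core

theorem poly_augment {D : α → List (ℕ × ℕ)} {S T : α → List ℕ} {k : α → ℕ}
    (hD : Poly D) (hS : Poly S) (hT : Poly T) (hk : Poly k) :
    Poly (fun a => augment (D a) (S a) (T a) (k a)) := by
  have hthr : UPoly (fun a => thr (D a) (S a) (T a)) := by
    unfold thr
    exact (UPoly.length hD).mul ((UPoly.length hS).mul (UPoly.length hT))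
  have hmin : UPoly (fun a => min (k a) (thr (D a) (S a) (T a))) :=
    UPoly.of_le (Poly.min hk hthr.toPoly) hthr (fun a => min_le_right _ _)
  have hthr' : Poly (fun a => thr (D a) (S a) (T a)) := hthr.toPoly
  have h1 : Poly (fun a => core ((D a, S a, T a),
      List.replicate (min (k a) (thr (D a) (S a) (T a))) ())) :=
    poly_core.comp (Poly.pair (Poly.pair hD (Poly.pair hS hT)) hmin)
  have h2 : Poly (fun a => core (([], S a, T a), [()])) :=
    poly_core.comp (Poly.pair (Poly.pair (Poly.const []) (Poly.pair hS hT)) (Poly.const _))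
  have h3 : Poly (fun p : α × (((ℕ × ℕ) × ℕ) × ((ℕ × ℕ) × ℕ)) =>
      (p.2.1.1, p.2.1.2 + (k p.1 - thr (D p.1) (S p.1) (T p.1)) * p.2.2.2)) :=
    Poly.pair (Poly.fst (Poly.fst (Poly.snd Poly.id)))
      (Poly.add (Poly.snd (Poly.fst (Poly.snd Poly.id)))
        (Poly.mul (Poly.sub (hk.comp (Poly.fst Poly.id)) (hthr'.comp (Poly.fst Poly.id)))
          (Poly.snd (Poly.snd (Poly.snd Poly.id)))))
  unfold augment
  exact Poly.map (F := fun a (e : ((ℕ × ℕ) × ℕ) × ((ℕ × ℕ) × ℕ)) =>
    (e.1.1, e.1.2 + (k a - thr (D a) (S a) (T a)) * e.2.2)) (Poly.zip h1 h2) h3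

end Pool.Agent.NPC.H685STA
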