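import Pool.Agent.H685R2.STA.PCut
import Pool.Agent.H685R2.STA.PCap

namespace Pool.Agent.NPC.H685STA

open Pool.Agent.H685R2.STA

variable {α : Type} [TEnc α]

theorem pstep_leave {C : α → List (ℕ × ℕ)} {X : α → List ℕ} (hC : Poly C) (hX : Poly X) :
    Poly (fun a => leave (C a) (X a)) := by
  unfold leave
  fun_prop

theorem pstep_bad {C : α → List (ℕ × ℕ)} {N Z k : α → ℕ} {X : α → List ℕ} (hC : Poly C)
    (hN : Poly N) (hZ : Poly Z) (hk : Poly k) (hX : Poly X) :
    Poly (fun a => bad (C a) (N a) (Z a) (k a) (X a)) := by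
  have h1 : Poly (fun a => (leave (C a) (X a)).length) := (pstep_leave hC hX).length
  unfold bad
  fun_prop

attribute [local fun_prop] poly_cutL pstep_bad
attribute [local irreducible] cutL capn bad

theorem pstep_viol0 {C P : α → List (ℕ × ℕ)} {Z N k : α → ℕ} (hC : Poly C) (hP : Poly P)
    (hZ : Poly Z) (hN : Poly N) (hk : Poly k) :
    Poly (fun a => (((P a).map fun b => cutL (C a) b.1 b.2).filter fun X =>
      bad (C a) (N a) (Z a) (k a) X).head?) := by
  have h1 : Poly (fun a => (P a).map fun b => cutL (C a) b.1 b.2) := by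
    fun_prop
  fun_prop

theorem pstep_prec {N B : α → ℕ} (hN : Poly N) (hB : Poly B) :
    Poly (fun a => prec (N a) (B a)) := by
  unfold prec
  fun_prop

theorem pstep_viol {D P : α → List (ℕ × ℕ)} {K : α → List Unit} {B : α → ℕ} {w : α → List ℕ}
    (hD : Poly D) (hP : Poly P) (hK : Poly K) (hB : UPoly B) (hw : Poly w) :
    Poly (fun a => viol (D a) (P a) (K a) (B a) (w a)) := by
  unfold viol
  exact pstep_viol0 (poly_capn hD hP hB hw) hP (pstep_prec hP.length hB.toPoly) hP.length
    hK.length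

theorem pstep_upd {P : α → List (ℕ × ℕ)} {M : α → ℕ} {w X : α → List ℕ} (hP : Poly P)
    (hM : Poly M) (hw : Poly w) (hX : Poly X) : Poly (fun a => upd (P a) (M a) (w a) (X a)) := by
  unfold upd
  fun_prop

theorem poly_step {D P : α → List (ℕ × ℕ)} {K : α → List Unit} {B : α → ℕ}
    {o : α → Option (List ℕ)} (hD : Poly D) (hP : Poly P) (hK : Poly K) (hB : UPoly B)
    (ho : Poly o) : Poly (fun a => step (D a) (P a) (K a) (B a) (o a)) := by
  unfold step
  refine Poly.optElim ho (Poly.const none) (Poly.optElim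
    (pstep_viol (hD.comp (Poly.fst Poly.id)) (hP.comp (Poly.fst Poly.id))
      (hK.comp (Poly.fst Poly.id)) (hB.comp (Poly.fst Poly.id)) (Poly.snd Poly.id))
    (Poly.const none) (Poly.some ?_))
  refine pstep_upd ?_ ?_ ?_ ?_
  · fun_prop
  · fun_prop
  · fun_prop
  · fun_prop

end Pool.Agent.NPC.H685STA
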