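import Pool.Agent.H685R2.STA.Hist

namespace Pool.Agent.H685R2.STA

theorem leave_length (C : List (ℕ × ℕ)) (X : List ℕ) :
    (leave C X).length = dout C X.toFinset := by
  unfold leave dout
  rw [← List.countP_eq_length_filter]
  refine List.countP_congr fun a _ => ?_
  unfold lv
  simp only [Bool.and_eq_true, decide_eq_true_eq, Bool.not_eq_true', decide_eq_false_iff_not,
    List.mem_toFinset]

theorem srch_mem_leave {C : List (ℕ × ℕ)} {X : List ℕ} {a : ℕ × ℕ} (h : a ∈ leave C X) :
    a ∈ C ∧ a.1 ∈ X ∧ a.2 ∉ X := by
  unfold leave at h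
  rw [List.mem_filter] at h
  simp only [Bool.and_eq_true, decide_eq_true_eq, Bool.not_eq_true',
    decide_eq_false_iff_not] at h
  exact h

theorem srch_ext_nil {C : List (ℕ × ℕ)} {s : ℕ} {Tr : List (ℕ × ℕ)}
    (h : leave C (reach s Tr) = []) : ext C s Tr = Tr := by
  unfold ext
  rw [h]
  rfl

theorem srch_ext_cons {C : List (ℕ × ℕ)} {s : ℕ} {Tr l : List (ℕ × ℕ)} {a : ℕ × ℕ}
    (h : leave C (reach s Tr) = a :: l) : ext C s Tr = a :: Tr := by
  unfold ext
  rw [h]
  rfl

theorem srch_countP_lt {α : Type} (p q : α → Bool) (l : List α)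
    (h : ∀ x ∈ l, q x = true → p x = true) (a : α) (ha : a ∈ l) (hp : p a = true)
    (hq : q a = false) : l.countP q < l.countP p := by
  induction l with
  | nil => exact absurd ha List.not_mem_nil
  | cons b l ih =>
    rw [List.countP_cons, List.countP_cons]
    have h1 : l.countP q ≤ l.countP p :=
      List.countP_mono_left fun x hx => h x (List.mem_cons_of_mem _ hx)
    rcases List.mem_cons.1 ha with rfl | ha'
    · rw [if_pos hp, if_neg (by rw [hq]; exact Bool.false_ne_true)]
      omega
    · have h2 := ih (fun x hx => h x (List.mem_cons_of_mem _ hx)) ha'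
      have h3 := h b List.mem_cons_self
      by_cases hb : q b = true
      · rw [if_pos hb, if_pos (h3 hb)]
        omega
      · rw [if_neg hb]
        omega

/-- number of arcs whose head is not reached -/
def srch_phi (C : List (ℕ × ℕ)) (s : ℕ) (Tr : List (ℕ × ℕ)) : ℕ :=
  C.countP fun a => !decide (a.2 ∈ reach s Tr)

theorem srch_phi_step {C : List (ℕ × ℕ)} {s : ℕ} {Tr l : List (ℕ × ℕ)} {a : ℕ × ℕ}
    (h : leave C (reach s Tr) = a :: l) : srch_phi C s (a :: Tr) < srch_phi C s Tr := by
  obtain ⟨h1, -, h3⟩ := srch_mem_leave (h ▸ List.mem_cons_self : a ∈ leave C (reach s Tr))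
  unfold srch_phi
  refine srch_countP_lt _ _ C (fun x _ hx => ?_) a h1 ?_ ?_
  · simp only [Bool.not_eq_true', decide_eq_false_iff_not] at hx ⊢
    intro h4
    apply hx
    unfold reach at h4 ⊢
    rw [List.map_cons]
    rcases List.mem_cons.1 h4 with h4 | h4
    · rw [h4]
      exact List.mem_cons_self
    · exact List.mem_cons_of_mem _ (List.mem_cons_of_mem _ h4)
  · simp only [Bool.not_eq_true', decide_eq_false_iff_not]
    exact h3
  · simp only [Bool.not_eq_false', decide_eq_true_eq]
    unfold reach
    rw [List.map_cons]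
    exact List.mem_cons_of_mem _ List.mem_cons_self

theorem srch_iter (C : List (ℕ × ℕ)) (s : ℕ) (n : ℕ) :
    leave C (reach s ((ext C s)^[n] [])) = [] ∨
      srch_phi C s ((ext C s)^[n] []) + n ≤ C.length := by
  induction n with
  | zero =>
    right
    exact List.countP_le_length
  | succ n ih =>
    rw [Function.iterate_succ_apply']
    rcases ih with ih | ih
    · left
      rw [srch_ext_nil ih]
      exact ih
    · rcases hl : leave C (reach s ((ext C s)^[n] [])) with _ | ⟨a, l⟩
      · left
        rw [srch_ext_nil hl]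
        exact hl
      · right
        rw [srch_ext_cons hl]
        have := srch_phi_step hl
        omega

theorem tree_closed (C : List (ℕ × ℕ)) (s : ℕ) : leave C (reach s (tree C s)) = [] := by
  rcases srch_iter C s C.length with h | h
  · exact h
  · rcases hl : leave C (reach s (tree C s)) with _ | ⟨a, l⟩
    · rfl
    · exfalso
      have h1 := srch_phi_step hl
      unfold tree at h1
      omega

theorem srch_good_ext (C : List (ℕ × ℕ)) (s : ℕ) (Tr : List (ℕ × ℕ)) (h : GoodTree C s Tr) :
    GoodTree C s (ext C s Tr) := by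
  rcases hl : leave C (reach s Tr) with _ | ⟨a, l⟩
  · rw [srch_ext_nil hl]
    exact h
  · rw [srch_ext_cons hl]
    obtain ⟨h1, h2, h3⟩ := srch_mem_leave (hl ▸ List.mem_cons_self : a ∈ leave C (reach s Tr))
    exact ⟨h, h1, h2, h3⟩

theorem tree_good (C : List (ℕ × ℕ)) (s : ℕ) : GoodTree C s (tree C s) := by
  unfold tree
  have h : ∀ n, GoodTree C s ((ext C s)^[n] []) := by
    intro n
    induction n with
    | zero => exact trivial
    | succ n ih =>
      rw [Function.iterate_succ_apply']
      exact srch_good_ext C s _ ih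
  exact h _

theorem tree_nil (C : List (ℕ × ℕ)) (s : ℕ) (h : dout C {s} = 0) : tree C s = [] := by
  have h1 : leave C (reach s []) = [] := by
    rw [← List.length_eq_zero_iff, leave_length]
    have h2 : (reach s []).toFinset = {s} := by
      unfold reach
      simp
    rw [h2]
    exact h
  exact Function.iterate_fixed (srch_ext_nil h1) _

end Pool.Agent.H685R2.STA
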