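import Pool.Agent.NPC.Enc

/-! # Polynomial-time functions between encodable types, as Turing machines of Mathlib -/

namespace Pool.Agent.NPC

open Turing

theorem PC.toTM {α β : Type} {ea : α → List Bool} {eb : β → List Bool} {f : α → β}
    (h : PC ea eb f) : Nonempty (TM2ComputableInPolyTime ea eb f) := by
  obtain ⟨c, p, h⟩ := h
  have key : ∀ x : α, ∃ t, t ≤ p.eval (ea x).length + 1 ∧
      Nonempty (TM2OutputsInTime (c.map (Fin.ofNat (c.bd + 1))).toTM (ea x)
        (some (eb (f x))) t) := by
    intro x
    obtain ⟨t, ht, hr⟩ := h x
    have h1 := hr.restrict (n := c.bd) (by omega)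
    refine ⟨t + 1, by simpa using ht, toTM_outputs ?_⟩
    convert! h1 using 1
    · funext i
      by_cases hi : i = 0
      · subst hi; simp [inp]
      · have : (i : ℕ) ≠ 0 := fun h => hi (Fin.ext h)
        simp [inp, hi, this]
    · funext i
      by_cases hi : i = 0
      · subst hi; simp [inp]
      · have : (i : ℕ) ≠ 0 := fun h => hi (Fin.ext h)
        simp [inp, hi, this]
  refine ⟨{ tm := (c.map (Fin.ofNat (c.bd + 1))).toTM
            inputAlphabet := Equiv.refl Bool
            outputAlphabet := Equiv.refl Bool
            time := p + 1
            outputsFun := ?_ }⟩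
  intro x
  have hx := key x
  have ht := hx.choose_spec.1
  have hm := hx.choose_spec.2.some
  refine outputs_conv (List.map_id (ea x)).symm (List.map_id (eb (f x))).symm (ht.trans ?_) hm
  simp

/-- A polynomial-time function between encodable types is computed by a polynomial-time Turing
machine (in the sense of Mathlib) with respect to the encodings. -/
theorem Poly.toTM {α β : Type} [TEnc α] [TEnc β] {f : α → β} (h : Poly f) :
    Nonempty (TM2ComputableInPolyTime (bits : α → List Bool) (bits : β → List Bool) f) :=
  PC.toTM h

end Pool.Agent.NPC
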