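import Pool.Agent.H685R2.STA.Defs

namespace Pool.Agent.H685R2.STA

namespace UnxAux

lemma cv_cons (a : ℕ × ℕ) (X : Finset ℕ) (M : Multiset (Finset ℕ)) :
    cv a (X ::ₘ M) = cv a M + if lv a X then 1 else 0 := by
  unfold cv
  rw [Multiset.countP_cons]

lemma lv_le (b : ℕ × ℕ) (X Y : Finset ℕ) :
    ((if lv b (X ∩ Y) then 1 else 0) + (if lv b (X ∪ Y) then 1 else 0) : ℕ) ≤
      (if lv b X then 1 else 0) + (if lv b Y then 1 else 0) := by
  unfold lv
  simp only [Finset.mem_inter, Finset.mem_union]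
  by_cases h1 : b.1 ∈ X <;> by_cases h2 : b.1 ∈ Y <;> by_cases h3 : b.2 ∈ X <;>
    by_cases h4 : b.2 ∈ Y <;> simp [h1, h2, h3, h4]

lemma sq_lt (X Y : Finset ℕ) (h1 : ¬ X ⊆ Y) (h2 : ¬ Y ⊆ X) :
    X.card ^ 2 + Y.card ^ 2 < (X ∩ Y).card ^ 2 + (X ∪ Y).card ^ 2 := by
  have e := Finset.card_union_add_card_inter X Y
  have i1 : (X ∩ Y).card < X.card := by
    apply Finset.card_lt_card
    refine ⟨Finset.inter_subset_left, fun h => h1 fun x hx => ?_⟩
    exact (Finset.mem_inter.1 (h hx)).2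
  have i2 : (X ∩ Y).card < Y.card := by
    apply Finset.card_lt_card
    refine ⟨Finset.inter_subset_right, fun h => h2 fun x hx => ?_⟩
    exact (Finset.mem_inter.1 (h hx)).1
  obtain ⟨r, hr⟩ := Nat.exists_eq_add_of_lt i1
  obtain ⟨s, hs⟩ := Nat.exists_eq_add_of_lt i2
  have hu : (X ∪ Y).card = (X ∩ Y).card + (r + 1) + (s + 1) := by omega
  rw [hu, hr, hs]
  nlinarith

theorem main (P : List (ℕ × ℕ)) (p : Finset ℕ → ℤ)
    (hp : ∀ X Y, (∃ a ∈ P, lv a X ∧ lv a Y) → p X + p Y ≤ p (X ∩ Y) + p (X ∪ Y))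
    (U : Finset ℕ) (m : ℕ) : ∀ (M : Multiset (Finset ℕ)), InC P M → (∀ X ∈ M, X ⊆ U) →
    M.card * U.card ^ 2 ≤ m + (M.map fun X => X.card ^ 2).sum →
    ∃ M' : Multiset (Finset ℕ), InC P M' ∧ (M.map p).sum ≤ (M'.map p).sum ∧
      (∀ a, cv a M' ≤ cv a M) ∧ Unx P M' := by
  induction m with
  | zero =>
    intro M hM hU hm
    by_cases hx : Unx P M
    · exact ⟨M, hM, le_rfl, fun _ => le_rfl, hx⟩
    · exfalso
      unfold Unx at hx
      push Not at hx
      obtain ⟨X, hX, Y, hY, -, h1, h2⟩ := hx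
      have hne : Y ≠ X := fun h => h1 (h ▸ subset_rfl)
      obtain ⟨M1, rfl⟩ := Multiset.exists_cons_of_mem hX
      have hY1 : Y ∈ M1 := (Multiset.mem_cons.1 hY).resolve_left hne
      obtain ⟨M0, rfl⟩ := Multiset.exists_cons_of_mem hY1
      have hs : (M0.map fun X => X.card ^ 2).sum ≤ M0.card * U.card ^ 2 := by
        have := Multiset.sum_le_card_nsmul (M0.map fun X => X.card ^ 2) (U.card ^ 2) (by
          intro x hx
          obtain ⟨Z, hZ, rfl⟩ := Multiset.mem_map.1 hx
          have : Z.card ≤ U.card :=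
            Finset.card_le_card (hU Z (Multiset.mem_cons_of_mem (Multiset.mem_cons_of_mem hZ)))
          exact Nat.pow_le_pow_left this 2)
        simpa using this
      have hlt := sq_lt X Y h1 h2
      have hXU : X ⊆ U := hU X (by simp)
      have hYU : Y ⊆ U := hU Y (by simp)
      have c1 : (X ∩ Y).card ^ 2 ≤ U.card ^ 2 :=
        Nat.pow_le_pow_left (Finset.card_le_card (Finset.inter_subset_left.trans hXU)) 2
      have c2 : (X ∪ Y).card ^ 2 ≤ U.card ^ 2 :=
        Nat.pow_le_pow_left (Finset.card_le_card (Finset.union_subset hXU hYU)) 2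
      simp only [Multiset.map_cons, Multiset.sum_cons, Multiset.card_cons] at hm
      nlinarith
  | succ m ih =>
    intro M hM hU hm
    by_cases hx : Unx P M
    · exact ⟨M, hM, le_rfl, fun _ => le_rfl, hx⟩
    · unfold Unx at hx
      push Not at hx
      obtain ⟨X, hX, Y, hY, ⟨a, ha, haX, haY⟩, h1, h2⟩ := hx
      have hne : Y ≠ X := fun h => h1 (h ▸ subset_rfl)
      obtain ⟨M1, rfl⟩ := Multiset.exists_cons_of_mem hX
      have hY1 : Y ∈ M1 := (Multiset.mem_cons.1 hY).resolve_left hne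
      obtain ⟨M0, rfl⟩ := Multiset.exists_cons_of_mem hY1
      have hlt := sq_lt X Y h1 h2
      have hXU : X ⊆ U := hU X (by simp)
      have hYU : Y ⊆ U := hU Y (by simp)
      have hin : InC P ((X ∩ Y) ::ₘ (X ∪ Y) ::ₘ M0) := by
        intro Z hZ
        rcases Multiset.mem_cons.1 hZ with rfl | hZ
        · exact ⟨a, ha, Finset.mem_inter.2 ⟨haX.1, haY.1⟩,
            fun h => haX.2 (Finset.mem_inter.1 h).1⟩
        · rcases Multiset.mem_cons.1 hZ with rfl | hZ
          · refine ⟨a, ha, Finset.mem_union_left _ haX.1, fun h => ?_⟩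
            rcases Finset.mem_union.1 h with h | h
            · exact haX.2 h
            · exact haY.2 h
          · exact hM Z (Multiset.mem_cons_of_mem (Multiset.mem_cons_of_mem hZ))
      have hsub : ∀ Z ∈ ((X ∩ Y) ::ₘ (X ∪ Y) ::ₘ M0), Z ⊆ U := by
        intro Z hZ
        rcases Multiset.mem_cons.1 hZ with rfl | hZ
        · exact Finset.inter_subset_left.trans hXU
        · rcases Multiset.mem_cons.1 hZ with rfl | hZ
          · exact Finset.union_subset hXU hYU
          · exact hU Z (Multiset.mem_cons_of_mem (Multiset.mem_cons_of_mem hZ))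
      obtain ⟨M', i1, i2, i3, i4⟩ := ih _ hin hsub (by
        simp only [Multiset.map_cons, Multiset.sum_cons, Multiset.card_cons] at hm ⊢
        omega)
      refine ⟨M', i1, ?_, ?_, i4⟩
      · refine le_trans ?_ i2
        simp only [Multiset.map_cons, Multiset.sum_cons]
        have := hp X Y ⟨a, ha, haX, haY⟩
        linarith
      · intro b
        refine (i3 b).trans ?_
        rw [cv_cons, cv_cons, cv_cons, cv_cons]
        have := lv_le b X Y
        omega

end UnxAux

theorem uncross (P : List (ℕ × ℕ)) (p : Finset ℕ → ℤ)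
    (hp : ∀ X Y, (∃ a ∈ P, lv a X ∧ lv a Y) → p X + p Y ≤ p (X ∩ Y) + p (X ∪ Y))
    (M : Multiset (Finset ℕ)) (hM : InC P M) :
    ∃ M' : Multiset (Finset ℕ), InC P M' ∧ (M.map p).sum ≤ (M'.map p).sum ∧
      (∀ a, cv a M' ≤ cv a M) ∧ Unx P M' := by
  refine UnxAux.main P p hp (M.sup) (M.card * (M.sup).card ^ 2) M hM ?_ (Nat.le_add_right _ _)
  intro X hX
  exact Multiset.le_sup hX

end Pool.Agent.H685R2.STA
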