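import Pool.Agent.H685R2.STA.Meng
import Pool.Agent.H685R2.STA.Bld
import Pool.Agent.H685R2.STA.Big

namespace Pool.Agent.H685R2.STA

theorem vec_mem_pairs {S T : List ℕ} {a : ℕ × ℕ} :
    a ∈ pairs S T ↔ a.1 ∈ S ∧ a.2 ∈ T ∧ a.1 ≠ a.2 := by
  obtain ⟨x, y⟩ := a
  unfold pairs
  rw [List.mem_filter, List.mem_flatMap]
  simp only [List.mem_map, Prod.mk.injEq, Bool.not_eq_true', decide_eq_false_iff_not]
  constructor
  · rintro ⟨⟨s, hs, t, ht, rfl, rfl⟩, h⟩
    exact ⟨hs, ht, h⟩
  · rintro ⟨hs, ht, h⟩
    exact ⟨⟨x, hs, y, ht, rfl, rfl⟩, h⟩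

theorem kconn_iff (D : List (ℕ × ℕ)) (S T : List ℕ) (k : ℕ) :
    KConn D S T k ↔ Cov D (pairs S T) k := by
  unfold KConn Cov
  constructor
  · rintro h ⟨s, t⟩ ha X ⟨h1, h2⟩
    obtain ⟨hs, ht, hst⟩ := vec_mem_pairs.1 ha
    exact (menger D s t hst k).1 (h s hs t ht hst) X h1 h2
  · intro h s hs t ht hst
    refine (menger D s t hst k).2 fun X h1 h2 => ?_
    exact h (s, t) (vec_mem_pairs.2 ⟨hs, ht, hst⟩) X ⟨h1, h2⟩

theorem vec_nodup {S T : List ℕ} (hS : S.Nodup) (hT : T.Nodup) : (pairs S T).Nodup := by
  unfold pairs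
  apply List.Nodup.filter
  exact List.Nodup.product hS hT

theorem vec_single {P : List (ℕ × ℕ)} (hP : P.Nodup) (f : ℕ × ℕ → ℕ) (b : ℕ × ℕ) (hb : b ∈ P) :
    (P.map fun a => if b = a then f a else 0).sum = f b := by
  induction P with
  | nil => simp at hb
  | cons c P ih =>
    rw [List.map_cons, List.sum_cons]
    obtain ⟨hc, hP'⟩ := List.nodup_cons.1 hP
    by_cases h : b = c
    · rw [if_pos h, ← h]
      have : (P.map fun a => if b = a then f a else 0).sum = 0 := by
        apply List.sum_eq_zero
        intro x hx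
        obtain ⟨a, ha, rfl⟩ := List.mem_map.1 hx
        rw [if_neg]
        rintro rfl
        exact hc (h ▸ ha)
      rw [this, add_zero]
    · rw [if_neg h, zero_add]
      exact ih hP' ((List.mem_cons.1 hb).resolve_left h)

theorem vec_sum {P : List (ℕ × ℕ)} (hP : P.Nodup) (f : ℕ × ℕ → ℕ) (F : List (ℕ × ℕ))
    (hF : ∀ b ∈ F, b ∈ P) :
    (P.map fun a => (F.filter fun b => decide (b = a)).length * f a).sum = (F.map f).sum := by
  induction F with
  | nil => simp
  | cons b F ih =>
    have ih' := ih fun c hc => hF c (List.mem_cons_of_mem _ hc)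
    rw [List.map_cons, List.sum_cons, ← ih', ← vec_single hP f b (hF b List.mem_cons_self),
      ← List.sum_map_add]
    congr 1
    apply List.map_congr_left
    intro a _
    rw [List.filter_cons]
    by_cases h : b = a
    · rw [if_pos h, if_pos (by simpa using h), List.length_cons]
      ring
    · rw [if_neg h, if_neg (by simpa using h), zero_add]

theorem vec_dout_eq (F : List (ℕ × ℕ)) (X : Finset ℕ) :
    dout F X = (F.map fun a => if lv a X then 1 else 0).sum := by
  unfold dout
  induction F with
  | nil => simp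
  | cons a F ih =>
    rw [List.countP_cons, ih, List.map_cons, List.sum_cons, add_comm]
    congr 1
    simp

theorem vec_rep_dout (n : ℕ) (a : ℕ × ℕ) (X : Finset ℕ) :
    dout (List.replicate n a) X = n * (if lv a X then 1 else 0) := by
  rw [vec_dout_eq, List.map_replicate, List.sum_replicate, smul_eq_mul]

theorem vec_expand_dout (P : List (ℕ × ℕ)) (c : ℕ × ℕ → ℕ) (X : Finset ℕ) :
    dout (P.flatMap fun a => List.replicate (c a) a) X =
      (P.map fun a => c a * (if lv a X then 1 else 0)).sum := by
  induction P with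
  | nil => simp [dout]
  | cons a P ih =>
    rw [List.flatMap_cons, dout_append, ih, vec_rep_dout, List.map_cons, List.sum_cons]

theorem vec_expand_length (P : List (ℕ × ℕ)) (c : ℕ × ℕ → ℕ) :
    (P.flatMap fun a => List.replicate (c a) a).length = (P.map c).sum := by
  induction P with
  | nil => simp
  | cons a P ih =>
    rw [List.flatMap_cons, List.length_append, ih, List.length_replicate, List.map_cons,
      List.sum_cons]

theorem vec_aug_opt {D F' : List (ℕ × ℕ)} {S T : List ℕ} {k : ℕ} (h : IsAug D S T k F') :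
    Opt D (pairs S T) k F'.length := by
  obtain ⟨h1, h2⟩ := h
  rw [kconn_iff] at h2
  refine ⟨F'.filter fun a => !decide (a.1 = a.2), ?_, List.length_filter_le _ _, ?_⟩
  · intro a ha
    obtain ⟨h3, h4⟩ := List.mem_filter.1 ha
    obtain ⟨h5, h6⟩ := h1 a h3
    refine vec_mem_pairs.2 ⟨h5, h6, ?_⟩
    simpa using h4
  · intro a ha X hX
    have h3 := h2 a ha X hX
    rw [dout_append] at h3 ⊢
    have h4 : dout (F'.filter fun a => !decide (a.1 = a.2)) X = dout F' X := by
      unfold dout
      rw [List.countP_filter]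
      apply List.countP_congr
      intro b _
      simp only [Bool.and_eq_true, decide_eq_true_eq, Bool.not_eq_true', decide_eq_false_iff_not]
      constructor
      · exact fun h => h.1
      · intro h
        refine ⟨h, fun hb => h.2 ?_⟩
        rw [← hb]; exact h.1
    rw [h4]
    exact h3

theorem augment_isOpt (D : List (ℕ × ℕ)) (S T : List ℕ) (k : ℕ) (hS : S.Nodup) (hT : T.Nodup) :
    IsOpt D S T k (expand (augment D S T k)) := by
  set P := pairs S T with hP
  have hPn : P.Nodup := vec_nodup hS hT
  set K0 := thr D S T with hK0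
  set F1 := sol D P (List.replicate (min k K0) ()) with hF1
  set F2 := sol [] P [()] with hF2
  obtain ⟨a1, a2, a3⟩ := sol_spec D S T (List.replicate (min k K0) ())
  obtain ⟨b1, b2, b3⟩ := sol_spec [] S T [()]
  rw [← hP, ← hF1] at a1 a2 a3
  rw [← hP, ← hF2] at b1 b2 b3
  rw [List.length_replicate] at a2 a3
  set c : ℕ × ℕ → ℕ := fun a => (F1.filter fun b => decide (b = a)).length +
    (k - K0) * (F2.filter fun b => decide (b = a)).length with hc
  have hexp : expand (augment D S T k) = P.flatMap fun a => List.replicate (c a) a := by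
    unfold expand augment core
    rw [List.zip_map', List.map_map, List.flatMap_map]
    rfl
  have hdout : ∀ X, dout (expand (augment D S T k)) X = dout F1 X + (k - K0) * dout F2 X := by
    intro X
    rw [hexp, vec_expand_dout, vec_dout_eq F1, vec_dout_eq F2, ← vec_sum hPn _ F1 a1,
      ← vec_sum hPn _ F2 b1, ← List.sum_map_mul_left, ← List.sum_map_add]
    congr 1
    apply List.map_congr_left
    intro a _
    simp only [hc]
    ring
  have hlen : (expand (augment D S T k)).length = F1.length + (k - K0) * F2.length := by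
    have e1 : ∀ F : List (ℕ × ℕ), F.length = (F.map fun _ => 1).sum := by
      intro F; simp
    rw [hexp, vec_expand_length, e1 F1, e1 F2, ← vec_sum hPn _ F1 a1,
      ← vec_sum hPn _ F2 b1, ← List.sum_map_mul_left, ← List.sum_map_add]
    congr 1
    apply List.map_congr_left
    intro a _
    simp only [hc, mul_one]
  have hPlen : P.length ≤ S.length * T.length := by
    refine le_trans (List.length_filter_le _ _) ?_
    have : (S.flatMap fun s => T.map fun t => (s, t)).length = S.length * T.length :=
      List.length_product S T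
    rw [this]
  refine ⟨⟨?_, ?_⟩, ?_⟩
  · intro a ha
    rw [hexp, List.mem_flatMap] at ha
    obtain ⟨b, hb, hab⟩ := ha
    rw [List.eq_of_mem_replicate hab]
    obtain ⟨h1, h2, _⟩ := vec_mem_pairs.1 hb
    exact ⟨h1, h2⟩
  · rw [kconn_iff]
    intro a ha X hX
    have h1 := a2 a ha X hX
    have h2 := b2 a ha X hX
    rw [dout_append] at h1 h2 ⊢
    rw [hdout]
    have h3 : 1 ≤ dout F2 X := by
      have : dout ([] : List (ℕ × ℕ)) X = 0 := rfl
      rw [this, zero_add] at h2
      exact h2
    have h4 : (k - K0) * 1 ≤ (k - K0) * dout F2 X := Nat.mul_le_mul_left _ h3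
    omega
  · intro F' hF'
    have hO := vec_aug_opt hF'
    rw [hlen]
    rcases le_or_gt k K0 with hk | hk
    · rw [min_eq_left hk] at a3
      rw [Nat.sub_eq_zero_of_le hk, zero_mul, add_zero]
      exact a3 _ hO
    · rw [min_eq_right hk.le] at a3
      exact big_k D S T K0 k F1.length F2.length F'.length
        (by rw [hK0]; exact Nat.mul_le_mul_left _ hPlen) hk.le a3 b3 hO

end Pool.Agent.H685R2.STA
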